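import Pool.Agent.Work.MP_20a6e6_al.C2Defs

/-!
# Groups of exponent 5: pairs `a`, `b` such that `a` and `b⁻¹ a b` generate a group of class 2

Let `G` be a group of exponent 5 and `a, b ∈ G` such that the commutator of `a` and `b⁻¹ a b` commutes
with `a` and `b⁻¹ a b`. Then the normal closure of `a` in `⟨a, b⟩` is nilpotent of class at most 3, and
`⟨a, b⟩` is finite. The same holds modulo a normal (for the finiteness: locally finite normal) subgroup.

Proof. Put `a_i = b^i a b^(-i)` (`i` modulo 5) and `B_i = [a_i, a_(i+1)]`; the fifth powers of the elements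
`a^s b` give `a_4^s a_0^s a_1^s = (a_2^s a_3^s)⁻¹`. The homomorphism property (in `s`) of
`(a_0^t a_1^t) a_4^s (a_0^t a_1^t)⁻¹ = a_4^(-t) B_2^(s t) a_4^(s+t) B_0^(s t)` (`Vx.E`) gives `Vx.fin`:
`B_0` and `B_2` commute, and `D = [a_4, B_2] = [a_4, B_0]^(±1)` commutes with `a_4, B_0, B_2`. By the
theorem on commuting conjugates (`Hyp.all`) all `B_i` commute. Then `D` commutes with all `a_i`, the `B_i`
lie in the second centre, and so do all commutators of the `a_i`.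
-/

set_option autoImplicit false

namespace Pool.Agent.B5C2

open scoped commutatorElement

/-! ## Conjugates -/

section conj
variable {G : Type} [Group G]

/-- Conjugation by `b ^ k`. -/
def f (b : G) (k : ℕ) : G →* G := (MulAut.conj (b ^ k)).toMonoidHom

theorem f_apply (b : G) (k : ℕ) (x : G) : f b k x = b ^ k * x * (b ^ k)⁻¹ :=
  MulAut.conj_apply _ _

theorem f_zero (b x : G) : f b 0 x = x := by simp [f_apply]

theorem f_f (b : G) (k l : ℕ) (x : G) : f b k (f b l x) = f b (k + l) x := by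
  simp only [f_apply, pow_add]
  group

theorem f_five {b : G} (hb : b ^ 5 = 1) (k : ℕ) (x : G) : f b (k + 5) x = f b k x := by
  rw [f_apply, f_apply, pow_add, hb, mul_one]

theorem f_mod {b : G} (hb : b ^ 5 = 1) (k : ℕ) (x : G) : f b k x = f b (k % 5) x := by
  rw [f_apply, f_apply, ← pow_eq_pow_mod k hb]

/-- The hypotheses on `A` and `b`. -/
structure Hyp (A : Subgroup G) (b : G) : Prop where
  hb : b ^ 5 = 1
  hab : ∀ a ∈ A, (a * b) ^ 5 = 1
  hc : ∀ x ∈ A, ∀ y ∈ A, Commute x (b⁻¹ * y * b)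

variable {A : Subgroup G} {b : G}

theorem Hyp.c4 (h : Hyp A b) {x y : G} (hx : x ∈ A) (hy : y ∈ A) : Commute x (f b 4 y) := by
  have h1 : f b 4 y = b⁻¹ * y * b := by
    have h2 : b ^ 4 = b⁻¹ := by
      apply eq_inv_of_mul_eq_one_left
      rw [← pow_succ, h.hb]
    rw [f_apply, h2, inv_inv]
  rw [h1]
  exact h.hc x hx y hy

theorem Hyp.c1 (h : Hyp A b) {x y : G} (hx : x ∈ A) (hy : y ∈ A) : Commute x (f b 1 y) := by
  have h1 := (h.c4 hy hx).map (f b 1)
  rw [f_f, f_five h.hb 0, f_zero] at h1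
  exact h1.symm

theorem Hyp.c23 (h : Hyp A b) {x y : G} (hx : x ∈ A) (hy : y ∈ A) :
    Commute (f b 2 x) (f b 3 y) := by
  have h1 := (h.c1 hx hy).map (f b 2)
  rw [f_f] at h1
  exact h1

theorem Hyp.prod (h : Hyp A b) {a : G} (ha : a ∈ A) :
    a * f b 1 a * f b 2 a * f b 3 a * f b 4 a = 1 := by
  have h1 : a * f b 1 a * f b 2 a * f b 3 a * f b 4 a * b ^ 5 = (a * b) ^ 5 := by
    have h0 : (a * b) ^ 5 = a * b * (a * b) * (a * b) * (a * b) * (a * b) := by
      simp only [pow_succ, pow_zero, one_mul]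
    rw [h0]
    simp only [f_apply]
    group
  rw [h.hab a ha, h.hb, mul_one] at h1
  exact h1

/-- `a_4 a_0 a_1` is the inverse of `a_2 a_3`. -/
theorem Hyp.al (h : Hyp A b) {a : G} (ha : a ∈ A) :
    f b 4 a * a * f b 1 a = (f b 2 a * f b 3 a)⁻¹ := by
  have h1 := h.prod ha
  have h2 : (a * f b 1 a) * (f b 2 a * f b 3 a * f b 4 a) = 1 := by
    rw [← h1]; group
  have h3 := eq_inv_of_mul_eq_one_left h2
  rw [mul_assoc (f b 4 a), h3]
  group

/-- `a ↦ a_4 a_0 a_1` reverses products. -/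
theorem Hyp.anti (h : Hyp A b) {x y : G} (hx : x ∈ A) (hy : y ∈ A) :
    f b 4 (x * y) * (x * y) * f b 1 (x * y) =
      (f b 4 y * y * f b 1 y) * (f b 4 x * x * f b 1 x) := by
  rw [h.al (A.mul_mem hx hy), h.al hx, h.al hy, ← mul_inv_rev, map_mul, map_mul]
  congr 1
  have h1 := (h.c23 hy hx).eq
  calc f b 2 x * f b 2 y * (f b 3 x * f b 3 y)
      = f b 2 x * (f b 2 y * f b 3 x) * f b 3 y := by group
    _ = f b 2 x * (f b 3 x * f b 2 y) * f b 3 y := by rw [h1]
    _ = f b 2 x * f b 3 x * (f b 2 y * f b 3 y) := by group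

/-- The main identity. -/
theorem Hyp.main (h : Hyp A b) {x y : G} (hx : x ∈ A) (hy : y ∈ A) :
    x * y * (f b 4 x * f b 4 y * f b 1 x * f b 1 y) =
      y * x * (f b 4 y * f b 1 y * f b 4 x * f b 1 x) := by
  have h0 := h.anti hx hy
  rw [map_mul, map_mul] at h0
  have xy := A.mul_mem hx hy
  have a1 : f b 4 x * f b 4 y * (x * y) * (f b 1 x * f b 1 y) =
      x * y * (f b 4 x * f b 4 y * f b 1 x * f b 1 y) := by
    have e : Commute (x * y) (f b 4 x * f b 4 y) :=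
      (h.c4 xy hx).mul_right (h.c4 xy hy)
    calc f b 4 x * f b 4 y * (x * y) * (f b 1 x * f b 1 y)
        = (x * y * (f b 4 x * f b 4 y)) * (f b 1 x * f b 1 y) := by rw [e.eq]
      _ = _ := by group
  have a2 : (f b 4 y * y * f b 1 y) * (f b 4 x * x * f b 1 x) =
      y * x * (f b 4 y * f b 1 y * f b 4 x * f b 1 x) := by
    have e1 : f b 4 y * y = y * f b 4 y := (h.c4 hy hy).eq.symm
    have e2 : (f b 1 y * f b 4 x) * x = x * (f b 1 y * f b 4 x) :=
      ((h.c1 hx hy).mul_right (h.c4 hx hx)).eq.symm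
    have e3 : f b 4 y * x = x * f b 4 y := (h.c4 hx hy).eq.symm
    calc (f b 4 y * y * f b 1 y) * (f b 4 x * x * f b 1 x)
        = (f b 4 y * y) * ((f b 1 y * f b 4 x) * x) * f b 1 x := by group
      _ = (y * f b 4 y) * (x * (f b 1 y * f b 4 x)) * f b 1 x := by rw [e1, e2]
      _ = y * (f b 4 y * x) * (f b 1 y * f b 4 x) * f b 1 x := by group
      _ = y * (x * f b 4 y) * (f b 1 y * f b 4 x) * f b 1 x := by rw [e3]
      _ = _ := by group
  rw [← a1, ← a2]
  exact h0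

/-- Commutators of elements of `A` are central in `A`. -/
theorem Hyp.cls (h : Hyp A b) {x y z : G} (hx : x ∈ A) (hy : y ∈ A) (hz : z ∈ A) :
    Commute ((y * x)⁻¹ * (x * y)) z := by
  have h1 := h.main hx hy
  have h2 : (y * x)⁻¹ * (x * y) = (f b 4 y * f b 1 y * f b 4 x * f b 1 x) *
      (f b 4 x * f b 4 y * f b 1 x * f b 1 y)⁻¹ := by
    rw [eq_mul_inv_iff_mul_eq, mul_assoc, h1]
    group
  rw [h2]
  have p4 : ∀ w ∈ A, Commute (f b 4 w) z := fun w hw => (h.c4 hz hw).symm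
  have p1 : ∀ w ∈ A, Commute (f b 1 w) z := fun w hw => (h.c1 hz hw).symm
  refine Commute.mul_left ?_ (Commute.inv_left ?_)
  · exact (((p4 y hy).mul_left (p1 y hy)).mul_left (p4 x hx)).mul_left (p1 x hx)
  · exact (((p4 x hx).mul_left (p4 y hy)).mul_left (p1 x hx)).mul_left (p1 y hy)

/-- The abelian case, first step. -/
theorem Hyp.key (h : Hyp A b) {x y : G} (hx : x ∈ A) (hy : y ∈ A) (hxy : Commute x y) :
    Commute (f b 4 x) (f b 1 y) := by
  have h1 := h.main hx hy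
  rw [hxy.eq, mul_right_inj] at h1
  have e4 : f b 4 x * f b 4 y = f b 4 y * f b 4 x := (hxy.map (f b 4)).eq
  have e1 : f b 1 x * f b 1 y = f b 1 y * f b 1 x := (hxy.map (f b 1)).eq
  have h2 : f b 4 y * (f b 4 x * f b 1 y) * f b 1 x = f b 4 y * (f b 1 y * f b 4 x) * f b 1 x := by
    calc f b 4 y * (f b 4 x * f b 1 y) * f b 1 x
        = (f b 4 y * f b 4 x) * (f b 1 y * f b 1 x) := by group
      _ = (f b 4 x * f b 4 y) * (f b 1 x * f b 1 y) := by rw [e4, e1]
      _ = f b 4 x * f b 4 y * f b 1 x * f b 1 y := by group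
      _ = _ := by rw [h1]; group
  rw [mul_left_inj, mul_right_inj] at h2
  exact h2

/-- Commuting elements of `A` have commuting conjugates, difference form. -/
theorem Hyp.all0 (h : Hyp A b) {x y : G} (hx : x ∈ A) (hy : y ∈ A) (hxy : Commute x y) (d : ℕ) :
    Commute x (f b d y) := by
  rw [f_mod h.hb]
  have hd : d % 5 < 5 := Nat.mod_lt _ (by norm_num)
  generalize d % 5 = e at hd
  interval_cases e
  · rwa [f_zero]
  · exact h.c1 hx hy
  · have h1 := (h.key hx hy hxy).map (f b 1)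
    rw [f_f, f_f, f_five h.hb 0, f_zero] at h1
    exact h1
  · have h1 := (h.key hy hx hxy.symm).map (f b 4)
    rw [f_f, f_f, f_five h.hb 3, f_five h.hb 0, f_zero] at h1
    exact h1.symm
  · exact h.c4 hx hy

theorem shift (b : G) (hb : b ^ 5 = 1) (k l : ℕ) (y : G) :
    f b l y = f b k (f b (4 * k + l) y) := by
  rw [f_f, f_mod hb (k + (4 * k + l)), f_mod hb l]
  congr 2
  omega

theorem Hyp.all (h : Hyp A b) {x y : G} (hx : x ∈ A) (hy : y ∈ A) (hxy : Commute x y) (k l : ℕ) :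
    Commute (f b k x) (f b l y) := by
  rw [shift b h.hb k l y]
  exact (h.all0 hx hy hxy _).map (f b k)

/-- `z` commutes with all conjugates `b^l x b^(-l)`, `x ∈ A`. -/
def Cen (A : Subgroup G) (b z : G) : Prop := ∀ x ∈ A, ∀ l : ℕ, Commute z (f b l x)

theorem Cen.mul {z w : G} (hz : Cen A b z) (hw : Cen A b w) : Cen A b (z * w) :=
  fun x hx l => (hz x hx l).mul_left (hw x hx l)

theorem Cen.inv {z : G} (hz : Cen A b z) : Cen A b z⁻¹ := fun x hx l => (hz x hx l).inv_left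

theorem Cen.f {z : G} (hb : b ^ 5 = 1) (hz : Cen A b z) (k : ℕ) : Cen A b (f b k z) := by
  intro x hx l
  rw [shift b hb k l x]
  exact (hz x hx _).map _

theorem Hyp.cen (h : Hyp A b) {x y : G} (hx : x ∈ A) (hy : y ∈ A) :
    Cen A b ((y * x)⁻¹ * (x * y)) := by
  intro z hz l
  refine h.all0 (A.mul_mem (A.inv_mem (A.mul_mem hy hx)) (A.mul_mem hx hy)) hz ?_ l
  exact h.cls hx hy hz

/-- The commutator of `a_4` and `a'_1` is central. -/
theorem Hyp.com41 (h : Hyp A b) {x y : G} (hx : x ∈ A) (hy : y ∈ A) :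
    Cen A b ⁅f b 4 x, f b 1 y⁆ := by
  obtain ⟨c, hcd⟩ : ∃ c, c = (y * x)⁻¹ * (x * y) := ⟨_, rfl⟩
  have hcen : Cen A b c := by rw [hcd]; exact h.cen hx hy
  have hxy : x * y = y * x * c := by rw [hcd]; group
  have h1 := h.main hx hy
  have hc4 := hcen.f h.hb 4
  have hc1 := hcen.f h.hb 1
  have e4 : f b 4 x * f b 4 y = f b 4 y * f b 4 x * f b 4 c := by
    rw [← map_mul, hxy, map_mul, map_mul]
  have e1 : f b 1 x * f b 1 y = f b 1 y * f b 1 x * f b 1 c := by
    rw [← map_mul, hxy, map_mul, map_mul]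
  have hz : Cen A b (c * f b 4 c * f b 1 c) := (hcen.mul hc4).mul hc1
  -- `a_4 a'_1 ζ = a'_1 a_4`
  have h2 : f b 4 x * f b 1 y * (c * f b 4 c * f b 1 c) = f b 1 y * f b 4 x := by
    have a1 : x * y * (f b 4 x * f b 4 y * f b 1 x * f b 1 y) =
        y * x * (f b 4 y * (f b 4 x * f b 1 y * (c * f b 4 c * f b 1 c)) * f b 1 x) := by
      have b1 : f b 4 x * f b 4 y * f b 1 x * f b 1 y =
          (f b 4 y * f b 4 x * f b 4 c) * (f b 1 y * f b 1 x * f b 1 c) := by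
        rw [← e4, ← e1]; group
      rw [b1, hxy]
      have q1 : f b 4 c * f b 1 y = f b 1 y * f b 4 c := (hc4 y hy 1).eq
      have q2 : (c * f b 4 c) * f b 1 x = f b 1 x * (c * f b 4 c) := ((hcen.mul hc4) x hx 1).eq
      have q3 : c * (f b 4 y * f b 4 x * f b 1 y) = f b 4 y * f b 4 x * f b 1 y * c :=
        (((hcen y hy 4).mul_right (hcen x hx 4)).mul_right (hcen y hy 1)).eq
      have q4 : f b 1 c * f b 1 x = f b 1 x * f b 1 c := (hc1 x hx 1).eq
      calc y * x * c * (f b 4 y * f b 4 x * f b 4 c * (f b 1 y * f b 1 x * f b 1 c))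
          = y * x * (c * (f b 4 y * f b 4 x * (f b 4 c * f b 1 y))) * f b 1 x * f b 1 c := by
            group
        _ = y * x * (c * (f b 4 y * f b 4 x * f b 1 y)) * f b 4 c * f b 1 x * f b 1 c := by
            rw [q1]; group
        _ = y * x * (f b 4 y * f b 4 x * f b 1 y) * ((c * f b 4 c) * f b 1 x) * f b 1 c := by
            rw [q3]; group
        _ = y * x * (f b 4 y * f b 4 x * f b 1 y) * (f b 1 x * (c * f b 4 c)) * f b 1 c := by
            rw [q2]
        _ = y * x * (f b 4 y * f b 4 x * f b 1 y) * (f b 1 x * (c * f b 4 c * f b 1 c)) := by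
            group
        _ = y * x * (f b 4 y * f b 4 x * f b 1 y) * ((c * f b 4 c * f b 1 c) * f b 1 x) := by
            rw [(hz x hx 1).eq]
        _ = _ := by group
    rw [a1, mul_right_inj] at h1
    have a2 : f b 4 y * (f b 1 y * f b 4 x) * f b 1 x =
        f b 4 y * f b 1 y * f b 4 x * f b 1 x := by group
    rw [← a2, mul_left_inj, mul_right_inj] at h1
    exact h1
  have h3 : ⁅f b 4 x, f b 1 y⁆ = (c * f b 4 c * f b 1 c)⁻¹ := by
    rw [commutatorElement_def]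
    have q : (c * f b 4 c * f b 1 c) * (f b 4 x * f b 1 y) =
        (f b 4 x * f b 1 y) * (c * f b 4 c * f b 1 c) :=
      ((hz x hx 4).mul_right (hz y hy 1)).eq
    rw [eq_inv_iff_mul_eq_one]
    calc f b 4 x * f b 1 y * (f b 4 x)⁻¹ * (f b 1 y)⁻¹ * (c * f b 4 c * f b 1 c)
        = f b 4 x * f b 1 y * (f b 1 y * f b 4 x)⁻¹ * (c * f b 4 c * f b 1 c) := by group
      _ = f b 4 x * f b 1 y * (f b 4 x * f b 1 y * (c * f b 4 c * f b 1 c))⁻¹ *
            (c * f b 4 c * f b 1 c) := by rw [h2]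
      _ = f b 4 x * f b 1 y * ((c * f b 4 c * f b 1 c) * (f b 4 x * f b 1 y))⁻¹ *
            (c * f b 4 c * f b 1 c) := by rw [q]
      _ = 1 := by group
  rw [h3]
  exact hz.inv

theorem map_comm (g : G →* G) (x y : G) : ⁅g x, g y⁆ = g ⁅x, y⁆ := by
  simp [commutatorElement_def]

/-- Commutators of conjugates are central, difference form. -/
theorem Hyp.com0 (h : Hyp A b) {x y : G} (hx : x ∈ A) (hy : y ∈ A) (d : ℕ) :
    Cen A b ⁅x, f b d y⁆ := by
  have hone : Cen A b 1 := fun _ _ _ => Commute.one_left _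
  rw [f_mod h.hb]
  have hd : d % 5 < 5 := Nat.mod_lt _ (by norm_num)
  generalize d % 5 = e at hd
  -- the case `d = 2`
  have two : ∀ u ∈ A, ∀ w ∈ A, Cen A b ⁅u, f b 2 w⁆ := by
    intro u hu w hw
    have h1 := (h.com41 hu hw).f h.hb 1
    rw [← map_comm, f_f, f_f, f_five h.hb 0, f_zero] at h1
    exact h1
  interval_cases e
  · rw [f_zero]
    have h1 := h.cen (A.inv_mem hx) (A.inv_mem hy)
    have h2 : (y⁻¹ * x⁻¹)⁻¹ * (x⁻¹ * y⁻¹) = ⁅x, y⁆ := by
      rw [commutatorElement_def]; group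
    rw [h2] at h1
    exact h1
  · rw [(h.c1 hx hy).commutator_eq]; exact hone
  · exact two x hx y hy
  · have h1 := (two y hy x hx).f h.hb 3
    rw [← map_comm, f_f, f_five h.hb 0, f_zero] at h1
    have h2 := h1.inv
    rw [commutatorElement_inv] at h2
    exact h2
  · rw [(h.c4 hx hy).commutator_eq]; exact hone

theorem Hyp.com (h : Hyp A b) {x y : G} (hx : x ∈ A) (hy : y ∈ A) (k l : ℕ) :
    Cen A b ⁅f b k x, f b l y⁆ := by
  rw [shift b h.hb k l y, map_comm]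
  exact (h.com0 hx hy _).f h.hb k

/-! ## The subgroup generated by the conjugates -/

/-- The subgroup generated by all `b^k a b^(-k)`. -/
def M (A : Subgroup G) (b : G) : Subgroup G :=
  Subgroup.closure {y | ∃ k : ℕ, ∃ a ∈ A, y = f b k a}

theorem f_mem_M {a : G} (ha : a ∈ A) (k : ℕ) : f b k a ∈ M A b :=
  Subgroup.subset_closure ⟨k, a, ha, rfl⟩

theorem Cen.M {z : G} (hz : Cen A b z) : ∀ w ∈ M A b, Commute z w := by
  intro w hw
  have hle : B5C2.M A b ≤ Subgroup.centralizer {z} := by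
    rw [B5C2.M, Subgroup.closure_le]
    rintro _ ⟨k, a, ha, rfl⟩
    rw [SetLike.mem_coe, Subgroup.mem_centralizer_singleton_iff]
    exact (hz a ha k).eq.symm
  have h1 := hle hw
  rw [Subgroup.mem_centralizer_singleton_iff] at h1
  exact Commute.symm h1

/-- If the commutators of generators are central then all commutators are central. -/
theorem closure_class {S : Set G}
    (hS : ∀ x ∈ S, ∀ y ∈ S, ∀ z ∈ Subgroup.closure S, Commute ⁅x, y⁆ z) :
    ∀ x ∈ Subgroup.closure S, ∀ y ∈ Subgroup.closure S, ∀ z ∈ Subgroup.closure S,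
      Commute ⁅x, y⁆ z := by
  -- products in the first place
  have step : ∀ y : G, (∀ x ∈ S, ∀ z ∈ Subgroup.closure S, Commute ⁅x, y⁆ z) →
      ∀ x ∈ Subgroup.closure S, ∀ z ∈ Subgroup.closure S, Commute ⁅x, y⁆ z := by
    intro y hy x hx
    refine Subgroup.closure_induction (p := fun x _ => ∀ z ∈ Subgroup.closure S, Commute ⁅x, y⁆ z)
      ?_ ?_ ?_ ?_ hx
    · intro x hx; exact hy x hx
    · intro z _
      rw [commutatorElement_one_left]
      exact Commute.one_left z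
    · intro u v hu hv h1 h2 z hz
      have e : ⁅u * v, y⁆ = ⁅v, y⁆ * ⁅u, y⁆ := by
        have e1 : ⁅u * v, y⁆ = u * ⁅v, y⁆ * u⁻¹ * ⁅u, y⁆ := by
          simp only [commutatorElement_def]; group
        rw [e1, ← (h2 u hu).eq]; group
      rw [e]
      exact (h2 z hz).mul_left (h1 z hz)
    · intro u hu h1 z hz
      have e : ⁅u⁻¹, y⁆ = ⁅u, y⁆⁻¹ := by
        have e1 : ⁅u⁻¹, y⁆ = u⁻¹ * ⁅u, y⁆⁻¹ * u := by
          simp only [commutatorElement_def]; group
        rw [e1, mul_assoc, ((h1 u hu).inv_left).eq]; group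
      rw [e]
      exact (h1 z hz).inv_left
  have sw : ∀ x y z : G, Commute ⁅x, y⁆ z → Commute ⁅y, x⁆ z := by
    intro x y z h
    rw [← commutatorElement_inv]
    exact h.inv_left
  intro x hx y hy
  refine step y ?_ x hx
  intro u hu z hz
  refine sw _ _ _ (step u ?_ y hy z hz)
  intro v hv z hz
  exact hS v hv u hu z hz

theorem closure_comm {S : Set G} (hS : ∀ x ∈ S, ∀ y ∈ S, x * y = y * x) :
    ∀ x ∈ Subgroup.closure S, ∀ y ∈ Subgroup.closure S, x * y = y * x := by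
  intro x hx y hy
  have h1 : Subgroup.closure S ≤ Subgroup.centralizer S := by
    rw [Subgroup.closure_le]
    intro z hz
    rw [SetLike.mem_coe, Subgroup.mem_centralizer_iff]
    intro y hy
    exact hS y hy z hz
  have h2 := Subgroup.closure_le_centralizer_centralizer S hx
  rw [Subgroup.mem_centralizer_iff] at h2
  exact (h2 y (h1 hy)).symm

theorem Hyp.M_class (h : Hyp A b) : ∀ x ∈ M A b, ∀ y ∈ M A b, ∀ z ∈ M A b,
    Commute ⁅x, y⁆ z := by
  refine closure_class ?_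
  rintro _ ⟨k, x, hx, rfl⟩ _ ⟨l, y, hy, rfl⟩ z hz
  exact (h.com hx hy k l).M z hz

theorem Hyp.M_comm (h : Hyp A b) (hA : ∀ x ∈ A, ∀ y ∈ A, x * y = y * x) :
    ∀ x ∈ M A b, ∀ y ∈ M A b, x * y = y * x := by
  refine closure_comm ?_
  rintro _ ⟨k, x, hx, rfl⟩ _ ⟨l, y, hy, rfl⟩
  exact (h.all hx hy (hA x hx y hy) k l).eq

/-! ## The normal closure -/

theorem conj_b (hb : b ^ 5 = 1) {y : G} (hy : y ∈ M A b) : b⁻¹ * y * b ∈ M A b := by
  refine Subgroup.closure_induction (p := fun y _ => b⁻¹ * y * b ∈ M A b) ?_ ?_ ?_ ?_ hy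
  · rintro _ ⟨k, a, ha, rfl⟩
    have h1 : b⁻¹ * f b k a * b = f b (k + 4) a := by
      have h2 : b ^ 4 = b⁻¹ := by
        apply eq_inv_of_mul_eq_one_left
        rw [← pow_succ, hb]
      rw [f_apply, f_apply, add_comm, pow_add, h2]
      group
    rw [h1]
    exact f_mem_M ha _
  · simp [(M A b).one_mem]
  · intro u v _ _ h1 h2
    have e : b⁻¹ * (u * v) * b = (b⁻¹ * u * b) * (b⁻¹ * v * b) := by group
    rw [e]
    exact (M A b).mul_mem h1 h2
  · intro u _ h1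
    have e : b⁻¹ * u⁻¹ * b = (b⁻¹ * u * b)⁻¹ := by group
    rw [e]
    exact (M A b).inv_mem h1

theorem conj_pow (hb : b ^ 5 = 1) (n : ℕ) {y : G} (hy : y ∈ M A b) :
    (b ^ n)⁻¹ * y * b ^ n ∈ M A b := by
  induction n with
  | zero => simpa using hy
  | succ n ih =>
    have h1 := conj_b (A := A) hb ih
    have e : (b ^ (n + 1))⁻¹ * y * b ^ (n + 1) = b⁻¹ * ((b ^ n)⁻¹ * y * b ^ n) * b := by
      rw [pow_succ]; group
    rw [e]
    exact h1

/-- `⟨A, b⟩` normalizes `M`. -/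
theorem conj_mem (hb : b ^ 5 = 1) {g : G} (hg : g ∈ A ⊔ Subgroup.zpowers b) :
    ∀ y ∈ M A b, g⁻¹ * y * g ∈ M A b := by
  have hle : A ⊔ Subgroup.zpowers b ≤ Subgroup.closure ((A : Set G) ∪ {b}) := by
    rw [Subgroup.closure_union, Subgroup.closure_eq, Subgroup.zpowers_eq_closure]
  have h0 := hle hg
  refine Subgroup.closure_induction'' (p := fun g _ => ∀ y ∈ M A b, g⁻¹ * y * g ∈ M A b)
    ?_ ?_ ?_ ?_ h0
  · rintro x (hx | hx) y hy
    · have hx' : x ∈ M A b := by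
        have := f_mem_M (b := b) hx 0
        rwa [f_zero] at this
      exact (M A b).mul_mem ((M A b).mul_mem ((M A b).inv_mem hx') hy) hx'
    · rw [Set.mem_singleton_iff] at hx
      subst hx
      exact conj_b hb hy
  · rintro x (hx | hx) y hy
    · have hx' : x ∈ M A b := by
        have := f_mem_M (b := b) hx 0
        rwa [f_zero] at this
      rw [inv_inv]
      exact (M A b).mul_mem ((M A b).mul_mem hx' hy) ((M A b).inv_mem hx')
    · rw [Set.mem_singleton_iff] at hx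
      subst hx
      have h1 := conj_pow (A := A) hb 4 hy
      have h2 : x ^ 4 = x⁻¹ := by
        apply eq_inv_of_mul_eq_one_left
        rw [← pow_succ, hb]
      rwa [h2] at h1
  · intro y hy; simpa using hy
  · intro u v _ _ h1 h2 y hy
    have e : (u * v)⁻¹ * y * (u * v) = v⁻¹ * (u⁻¹ * y * u) * v := by group
    rw [e]
    exact h2 _ (h1 y hy)

end conj

/-! ## Finiteness -/

section fin
variable {G : Type} [Group G]

theorem locFin_ext {N A : Subgroup G} [N.Normal] (hN : LocFin N)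
    (hq : ∀ S : Set G, S.Finite → S ⊆ A →
      Finite ((Subgroup.closure S).map (QuotientGroup.mk' N))) : LocFin A := by
  intro S hS hSA
  set F := Subgroup.closure S with hF
  have hfin := hq S hS hSA
  have : Finite S := hS
  have : Group.FG F := Group.closure_finite_fg S
  let φ : F →* G ⧸ N := (QuotientGroup.mk' N).comp F.subtype
  have hr : φ.range = F.map (QuotientGroup.mk' N) := by
    rw [MonoidHom.range_comp, Subgroup.range_subtype]
  have : Finite φ.range := by rw [hr]; exact hfin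
  have : Finite (F ⧸ φ.ker) := Finite.of_equiv _ (QuotientGroup.quotientKerEquivRange φ).symm.toEquiv
  have : φ.ker.FiniteIndex := Subgroup.finiteIndex_of_finite_quotient
  have hfg : Group.FG φ.ker := Subgroup.fg_of_index_ne_zero φ.ker
  obtain ⟨T, hT⟩ := (Group.fg_iff_subgroup_fg φ.ker).mp hfg
  have hTN : ∀ t ∈ T, ((t : F) : G) ∈ N := by
    intro t ht
    have : t ∈ φ.ker := by rw [← hT]; exact Subgroup.subset_closure ht
    have h1 : (QuotientGroup.mk' N) (t : G) = 1 := this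
    exact (QuotientGroup.eq_one_iff (t : G)).mp h1
  have hmap : φ.ker.map F.subtype = Subgroup.closure (F.subtype '' (T : Set F)) := by
    rw [← hT, MonoidHom.map_closure]
  have : Finite (φ.ker.map F.subtype) := by
    rw [hmap]
    refine hN _ (T.finite_toSet.image _) ?_
    rintro _ ⟨t, ht, rfl⟩
    exact hTN t ht
  have : Finite φ.ker :=
    Finite.of_equiv _ (φ.ker.equivMapOfInjective F.subtype F.subtype_injective).symm.toEquiv
  exact Finite.of_subgroup_quotient φ.ker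

theorem finite_of_comm {Q : Type} [Group Q] (H : Subgroup Q) (hfg : H.FG)
    (hc : ∀ a ∈ H, ∀ b ∈ H, a * b = b * a) (ht : ∀ a : Q, ∃ n : ℕ, 0 < n ∧ a ^ n = 1) :
    Finite H := by
  let _ : CommGroup H :=
    { (inferInstance : Group H) with
      mul_comm := fun a b => Subtype.ext (hc a a.2 b b.2) }
  have : Group.FG H := (Group.fg_iff_subgroup_fg H).mpr hfg
  refine CommGroup.finite_of_fg_isMulTorsion (G := H) ?_
  intro a
  obtain ⟨n, hn, h1⟩ := ht a
  exact isOfFinOrder_iff_pow_eq_one.mpr ⟨n, hn, Subtype.ext (by simpa using h1)⟩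

/-- A torsion subgroup whose commutators are central is locally finite. -/
theorem locFin_of_class (ht : ∀ a : G, ∃ n : ℕ, 0 < n ∧ a ^ n = 1) (N : Subgroup G) [N.Normal]
    (hN : ∀ x ∈ N, ∀ y ∈ N, ∀ z ∈ N, Commute ⁅x, y⁆ z) : LocFin N := by
  have hcm : ∀ x ∈ N, ∀ y ∈ N, ⁅x, y⁆ ∈ N := by
    intro x hx y hy
    rw [commutatorElement_def]
    exact N.mul_mem (N.mul_mem (N.mul_mem hx hy) (N.inv_mem hx)) (N.inv_mem hy)
  have hD : LocFin ⁅N, N⁆ := by
    have hcomm : ∀ x ∈ ⁅N, N⁆, ∀ y ∈ ⁅N, N⁆, x * y = y * x := by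
      rw [Subgroup.commutator_def]
      refine closure_comm ?_
      rintro _ ⟨x, hx, y, hy, rfl⟩ _ ⟨z, hz, w, hw, rfl⟩
      exact (hN x hx y hy _ (hcm z hz w hw)).eq
    intro S hS hSD
    refine finite_of_comm _ ⟨hS.toFinset, by simp⟩ ?_ ht
    have hle : Subgroup.closure S ≤ ⁅N, N⁆ := (Subgroup.closure_le _).mpr hSD
    exact fun a ha b hb => hcomm a (hle ha) b (hle hb)
  refine locFin_ext hD ?_
  intro S hS hSN
  rw [MonoidHom.map_closure]
  refine finite_of_comm _ ⟨(hS.image (QuotientGroup.mk' ⁅N, N⁆)).toFinset, by simp⟩ ?_ ?_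
  · refine closure_comm ?_
    rintro _ ⟨x, hx, rfl⟩ _ ⟨y, hy, rfl⟩
    rw [← map_mul, ← map_mul, QuotientGroup.mk'_apply, QuotientGroup.mk'_apply, QuotientGroup.eq]
    have h1 : ⁅y⁻¹, x⁻¹⁆ ∈ ⁅N, N⁆ :=
      Subgroup.commutator_mem_commutator (N.inv_mem (hSN hy)) (N.inv_mem (hSN hx))
    have h2 : (x * y)⁻¹ * (y * x) = ⁅y⁻¹, x⁻¹⁆ := by
      rw [commutatorElement_def]; group
    rw [h2]
    exact h1
  · intro a
    obtain ⟨a, rfl⟩ := QuotientGroup.mk'_surjective _ a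
    obtain ⟨n, hn, h1⟩ := ht a
    exact ⟨n, hn, by rw [← map_pow, h1, map_one]⟩

theorem commute_closure {S : Set G} {b : G} (hc : ∀ x ∈ S, ∀ y ∈ S, Commute x (b⁻¹ * y * b)) :
    ∀ x ∈ Subgroup.closure S, ∀ y ∈ Subgroup.closure S, Commute x (b⁻¹ * y * b) := by
  have h1 : ∀ y ∈ S, ∀ x ∈ Subgroup.closure S, Commute x (b⁻¹ * y * b) := by
    intro y hy x hx
    have hle : Subgroup.closure S ≤ Subgroup.centralizer {b⁻¹ * y * b} := by
      rw [Subgroup.closure_le]
      intro z hz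
      rw [SetLike.mem_coe, Subgroup.mem_centralizer_singleton_iff]
      exact (hc z hz y hy).eq
    have h2 := hle hx
    rwa [Subgroup.mem_centralizer_singleton_iff] at h2
  intro x hx y hy
  refine Subgroup.closure_induction (p := fun y _ => Commute x (b⁻¹ * y * b)) ?_ ?_ ?_ ?_ hy
  · intro y hy; exact h1 y hy x hx
  · simp
  · intro u v _ _ hu hv
    have e : b⁻¹ * (u * v) * b = (b⁻¹ * u * b) * (b⁻¹ * v * b) := by group
    rw [e]
    exact hu.mul_right hv
  · intro u _ hu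
    have e : b⁻¹ * u⁻¹ * b = (b⁻¹ * u * b)⁻¹ := by group
    rw [e]
    exact hu.inv_right

theorem finite_of_M (hexp : ∀ g : G, g ^ 5 = 1) (S : Set G) (hS : S.Finite) (b : G)
    (hgen : Subgroup.closure (S ∪ {b}) = ⊤)
    (hlf : (M (Subgroup.closure S) b).Normal → LocFin (M (Subgroup.closure S) b)) :
    Finite G := by
  have hsup : Subgroup.closure S ⊔ Subgroup.zpowers b = ⊤ := by
    rw [Subgroup.zpowers_eq_closure, ← Subgroup.closure_union, hgen]
  have hnor : (M (Subgroup.closure S) b).Normal := by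
    refine ⟨fun n hn g => ?_⟩
    have h1 := conj_mem (A := Subgroup.closure S) (hexp b) (g := g⁻¹) (by rw [hsup]; trivial) n hn
    rwa [inv_inv] at h1
  have ht : ∀ a : G, ∃ n : ℕ, 0 < n ∧ a ^ n = 1 := fun a => ⟨5, by norm_num, hexp a⟩
  have hM : LocFin (M (Subgroup.closure S) b) := hlf hnor
  have htop : LocFin (⊤ : Subgroup G) := by
    refine locFin_ext hM ?_
    intro T hT _
    rw [MonoidHom.map_closure]
    refine finite_of_comm _
      ⟨(hT.image (QuotientGroup.mk' (M (Subgroup.closure S) b))).toFinset, by simp⟩ ?_ ?_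
    · -- the quotient is generated by the image of `b`
      have hcyc : ∀ g : G ⧸ M (Subgroup.closure S) b,
          g ∈ Subgroup.zpowers ((QuotientGroup.mk' (M (Subgroup.closure S) b)) b) := by
        intro g
        obtain ⟨g, rfl⟩ := QuotientGroup.mk'_surjective _ g
        have hg : g ∈ Subgroup.closure (S ∪ {b}) := by rw [hgen]; trivial
        have h2 : (QuotientGroup.mk' (M (Subgroup.closure S) b)) g ∈
            (Subgroup.closure (S ∪ {b})).map (QuotientGroup.mk' (M (Subgroup.closure S) b)) :=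
          Subgroup.mem_map_of_mem _ hg
        rw [MonoidHom.map_closure] at h2
        refine (Subgroup.closure_le _).mpr ?_ h2
        rintro _ ⟨x, hx | hx, rfl⟩
        · have h3 : x ∈ M (Subgroup.closure S) b := by
            have := f_mem_M (b := b) (Subgroup.subset_closure hx : x ∈ Subgroup.closure S) 0
            rwa [f_zero] at this
          have h4 : (QuotientGroup.mk' (M (Subgroup.closure S) b)) x = 1 :=
            (QuotientGroup.eq_one_iff x).mpr h3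
          rw [SetLike.mem_coe, h4]
          exact Subgroup.one_mem _
        · rw [Set.mem_singleton_iff] at hx
          rw [hx]
          exact Subgroup.mem_zpowers _
      intro x _ y _
      obtain ⟨m, hm⟩ := Subgroup.mem_zpowers_iff.mp (hcyc x)
      obtain ⟨n, hn⟩ := Subgroup.mem_zpowers_iff.mp (hcyc y)
      rw [← hm, ← hn]
      exact (Commute.refl _).zpow_zpow m n
    · intro a
      obtain ⟨a, rfl⟩ := QuotientGroup.mk'_surjective _ a
      exact ⟨5, by norm_num, by rw [← map_pow, hexp a, map_one]⟩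
  have h1 := htop (S ∪ {b}) (hS.union (Set.finite_singleton b)) (fun _ _ => trivial)
  rw [hgen] at h1
  exact Finite.of_equiv _ (Subgroup.topEquiv (G := G)).toEquiv


end fin


section vertex
variable {G : Type} [Group G]

/-- Powers in a group of class 2. -/
theorem zz_swap {p q B : G} (hB : p * q = q * p * B) (hp : Commute B p) (hq : Commute B q)
    (t s : ℤ) : p ^ t * q ^ s = q ^ s * p ^ t * B ^ (t * s) := by
  have h1 : SemiconjBy q⁻¹ p (p * B) := by
    rw [SemiconjBy]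
    have : p * B = q⁻¹ * (q * p * B) := by group
    rw [this, ← hB]
    group
  have h2 := h1.zpow_right t
  rw [(hp.symm).mul_zpow] at h2
  have h3 : SemiconjBy (p ^ t)⁻¹ q (q * (B ^ t)⁻¹) := by
    rw [SemiconjBy] at h2 ⊢
    have hc : Commute (B ^ t) q := hq.zpow_left t
    have e1 : p ^ t = q * (p ^ t * B ^ t * q⁻¹) := by rw [← h2]; group
    have e2 : q * (p ^ t * B ^ t * q⁻¹) = q * p ^ t * (B ^ t * q⁻¹) := by group
    have e3 : B ^ t * q⁻¹ = q⁻¹ * B ^ t := hc.inv_right.eq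
    rw [e2, e3] at e1
    -- `p^t = q p^t q⁻¹ B^t`
    have e4 : q * (B ^ t)⁻¹ * (p ^ t)⁻¹ = q * (p ^ t * B ^ t)⁻¹ := by group
    have hpt : Commute (B ^ t) (p ^ t) := (hp.zpow_left t).zpow_right t
    rw [e4, ← hpt.eq]
    have e5 : (p ^ t)⁻¹ * q = (B ^ t)⁻¹ * q * (p ^ t)⁻¹ := by
      have : (p ^ t)⁻¹ = (B ^ t)⁻¹ * q * (p ^ t)⁻¹ * q⁻¹ := by
        conv_lhs => rw [e1]
        group
      calc (p ^ t)⁻¹ * q = (B ^ t)⁻¹ * q * (p ^ t)⁻¹ * q⁻¹ * q := by rw [← this]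
        _ = _ := by group
    rw [e5, hc.inv_left.eq]
    have e6 : (p ^ t)⁻¹ * (B ^ t)⁻¹ = (B ^ t)⁻¹ * (p ^ t)⁻¹ := by
      rw [← mul_inv_rev, ← mul_inv_rev, hpt.eq]
    rw [mul_inv_rev, e6]
    group
  have h4 := h3.zpow_right s
  have hc : Commute (B ^ t) q := hq.zpow_left t
  rw [(hc.symm.inv_right).mul_zpow, SemiconjBy] at h4
  have hBq : Commute (B ^ (t * s)) (q ^ s) := (hq.zpow_left _).zpow_right _
  have hBp : Commute (B ^ (t * s)) (p ^ t) := (hp.zpow_left _).zpow_right _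
  have h5 : (p ^ t)⁻¹ * q ^ s = q ^ s * (B ^ (t * s))⁻¹ * (p ^ t)⁻¹ := by
    rw [h4, inv_zpow, ← zpow_mul]
  calc p ^ t * q ^ s = p ^ t * (q ^ s * (B ^ (t * s))⁻¹ * (p ^ t)⁻¹) * p ^ t * B ^ (t * s) := by
        have : p ^ t * (q ^ s * (B ^ (t * s))⁻¹ * (p ^ t)⁻¹) * p ^ t * B ^ (t * s) =
          p ^ t * q ^ s := by group
        rw [this]
    _ = p ^ t * ((p ^ t)⁻¹ * q ^ s) * p ^ t * B ^ (t * s) := by rw [h5]
    _ = q ^ s * p ^ t * B ^ (t * s) := by group

/-- The relations at the vertex `u = a_4`: `v, w, p, q` are `a_0, a_1, a_2, a_3`. -/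
structure Vx (u v w p q b B : G) : Prop where
  hb : v * w = w * v * b
  hbv : Commute b v
  hbw : Commute b w
  hB : p * q = q * p * B
  hBp : Commute B p
  hBq : Commute B q
  rel : ∀ s : ℤ, u ^ s * v ^ s * w ^ s = (p ^ s * q ^ s)⁻¹
  e5 : ∀ x : G, x ^ (5 : ℤ) = 1

variable {u v w p q b B : G}

theorem Vx.E (h : Vx u v w p q b B) (s t : ℤ) :
    u ^ t * (v ^ t * w ^ t) * u ^ s * (v ^ t * w ^ t)⁻¹ =
      B ^ (s * t) * u ^ (s + t) * b ^ (s * t) := by
  have h1 : p ^ (s + t) * q ^ (s + t) = (p ^ s * q ^ s) * (p ^ t * q ^ t) * B ^ (t * s) := by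
    have e := zz_swap h.hB h.hBp h.hBq t s
    have hc : Commute (B ^ (t * s)) (q ^ t) := (h.hBq.zpow_left _).zpow_right _
    rw [zpow_add, zpow_add]
    calc p ^ s * p ^ t * (q ^ s * q ^ t) = p ^ s * (p ^ t * q ^ s) * q ^ t := by group
      _ = p ^ s * (q ^ s * p ^ t * B ^ (t * s)) * q ^ t := by rw [e]
      _ = p ^ s * q ^ s * p ^ t * (B ^ (t * s) * q ^ t) := by group
      _ = p ^ s * q ^ s * p ^ t * (q ^ t * B ^ (t * s)) := by rw [hc.eq]
      _ = _ := by group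
  have h2 : B ^ (t * s) * (u ^ (s + t) * v ^ (s + t) * w ^ (s + t)) =
      (u ^ t * v ^ t * w ^ t) * (u ^ s * v ^ s * w ^ s) := by
    rw [h.rel, h.rel, h.rel, h1]
    group
  have h3 := zz_swap h.hb h.hbv h.hbw s t
  have c1 : Commute (b ^ (s * t)) (v ^ s) := (h.hbv.zpow_left _).zpow_right _
  have c2 : Commute (b ^ (s * t)) (v ^ t * w ^ t) :=
    ((h.hbv.zpow_left _).zpow_right _).mul_right ((h.hbw.zpow_left _).zpow_right _)
  -- cancel `w^s` and `v^s`
  have h4 : B ^ (t * s) * (u ^ (s + t) * v ^ (s + t) * w ^ (s + t)) =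
      B ^ (t * s) * u ^ (s + t) * b ^ (s * t) * (v ^ t * w ^ t) * (v ^ s * w ^ s) := by
    have e1 : v ^ (s + t) * w ^ (s + t) = v ^ t * (v ^ s * w ^ t) * w ^ s := by
      rw [show s + t = t + s by ring, zpow_add, zpow_add]; group
    calc B ^ (t * s) * (u ^ (s + t) * v ^ (s + t) * w ^ (s + t))
        = B ^ (t * s) * u ^ (s + t) * (v ^ (s + t) * w ^ (s + t)) := by group
      _ = B ^ (t * s) * u ^ (s + t) * (v ^ t * (w ^ t * v ^ s * b ^ (s * t)) * w ^ s) := by
          rw [e1, h3]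
      _ = B ^ (t * s) * u ^ (s + t) * (v ^ t * (w ^ t * (v ^ s * b ^ (s * t))) * w ^ s) := by
          group
      _ = B ^ (t * s) * u ^ (s + t) * (v ^ t * (w ^ t * (b ^ (s * t) * v ^ s)) * w ^ s) := by
          rw [c1.eq]
      _ = B ^ (t * s) * u ^ (s + t) * ((v ^ t * w ^ t) * b ^ (s * t)) * (v ^ s * w ^ s) := by
          group
      _ = _ := by rw [← c2.eq]; group
  rw [h4] at h2
  have h5 : B ^ (t * s) * u ^ (s + t) * b ^ (s * t) * (v ^ t * w ^ t) =
      u ^ t * (v ^ t * w ^ t) * u ^ s := by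
    have e1 : (u ^ t * v ^ t * w ^ t) * (u ^ s * v ^ s * w ^ s) =
        (u ^ t * (v ^ t * w ^ t) * u ^ s) * (v ^ s * w ^ s) := by group
    rw [e1] at h2
    exact mul_right_cancel h2
  rw [← h5, mul_comm s t]
  group

/-- Conjugate of `x` by `u^j`. -/
def cj (u : G) (j : ℤ) (x : G) : G := u ^ j * x * (u ^ j)⁻¹

theorem cj_zpow (u : G) (j : ℤ) (x : G) (n : ℤ) : cj u j (x ^ n) = (cj u j x) ^ n := by
  have h := map_zpow (MulAut.conj (u ^ j)).toMonoidHom x n
  exact h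

theorem cj_cj (u : G) (i j : ℤ) (x : G) : cj u i (cj u j x) = cj u (i + j) x := by
  simp only [cj, zpow_add]
  group

theorem cj_mul (u : G) (j : ℤ) (x y : G) : cj u j (x * y) = cj u j x * cj u j y := by
  simp only [cj]
  group

theorem cj_inv (u : G) (j : ℤ) (x : G) : cj u j x⁻¹ = (cj u j x)⁻¹ := by
  simp only [cj]
  group

theorem cj_zero (u x : G) : cj u 0 x = x := by simp [cj]

theorem Vx.R (h : Vx u v w p q b B) (s s' t : ℤ) :
    B ^ (s' * t) * (cj u (s + s' + t) b) ^ (s * t) =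
      (cj u (s + t) b) ^ (s * t) * (cj u s B) ^ (s' * t) := by
  have e1 := h.E s t
  have e2 := h.E s' t
  have e3 := h.E (s + s') t
  -- homomorphism in `s`
  have h1 : u ^ t * (v ^ t * w ^ t) * u ^ (s + s') * (v ^ t * w ^ t)⁻¹ =
      (u ^ t * (v ^ t * w ^ t) * u ^ s * (v ^ t * w ^ t)⁻¹) * (u ^ t)⁻¹ *
      (u ^ t * (v ^ t * w ^ t) * u ^ s' * (v ^ t * w ^ t)⁻¹) := by
    rw [zpow_add]; group
  rw [e1, e2, e3] at h1
  have h2 : B ^ (s' * t) * u ^ (s + s' + t) * b ^ (s * t) =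
      u ^ (s + t) * b ^ (s * t) * (u ^ t)⁻¹ * (B ^ (s' * t) * u ^ (s' + t)) := by
    have a1 : B ^ ((s + s') * t) * u ^ (s + s' + t) * b ^ ((s + s') * t) =
        B ^ (s * t) * (B ^ (s' * t) * u ^ (s + s' + t) * b ^ (s * t)) * b ^ (s' * t) := by
      rw [add_mul, zpow_add, zpow_add]; group
    have a2 : B ^ (s * t) * u ^ (s + t) * b ^ (s * t) * (u ^ t)⁻¹ *
        (B ^ (s' * t) * u ^ (s' + t) * b ^ (s' * t)) =
        B ^ (s * t) * (u ^ (s + t) * b ^ (s * t) * (u ^ t)⁻¹ * (B ^ (s' * t) * u ^ (s' + t))) *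
          b ^ (s' * t) := by group
    rw [a1, a2] at h1
    exact mul_left_cancel (mul_right_cancel h1)
  rw [← cj_zpow, ← cj_zpow, ← cj_zpow]
  simp only [cj]
  have h3 : B ^ (s' * t) * (u ^ (s + s' + t) * b ^ (s * t) * (u ^ (s + s' + t))⁻¹) =
      (B ^ (s' * t) * u ^ (s + s' + t) * b ^ (s * t)) * (u ^ (s + s' + t))⁻¹ := by group
  rw [h3, h2]
  simp only [zpow_add]
  group

theorem Vx.Phi (h : Vx u v w p q b B) (s t t' k : ℤ) (hB' : B ^ (t' * t) = B) :
    (cj u k b) ^ (s * t) * cj u s B = B * (cj u (k + t') b) ^ (s * t) := by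
  have r1 := h.R s (k - s - t) t
  have r2 := h.R s (k - s - t + t') t
  rw [show s + (k - s - t) + t = k by ring] at r1
  rw [show s + (k - s - t + t') + t = k + t' by ring, add_mul, zpow_add, zpow_add, hB'] at r2
  have e : (cj u s B) ^ (t' * t) = cj u s B := by rw [← cj_zpow, hB']
  rw [e] at r2
  have h1 : B ^ ((k - s - t) * t) * (B * (cj u (k + t') b) ^ (s * t)) =
      B ^ ((k - s - t) * t) * ((cj u k b) ^ (s * t) * cj u s B) := by
    calc B ^ ((k - s - t) * t) * (B * (cj u (k + t') b) ^ (s * t))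
        = B ^ ((k - s - t) * t) * B * (cj u (k + t') b) ^ (s * t) := by group
      _ = (cj u (s + t) b) ^ (s * t) * ((cj u s B) ^ ((k - s - t) * t) * cj u s B) := r2
      _ = ((cj u (s + t) b) ^ (s * t) * (cj u s B) ^ ((k - s - t) * t)) * cj u s B := by group
      _ = (B ^ ((k - s - t) * t) * (cj u k b) ^ (s * t)) * cj u s B := by rw [r1]
      _ = _ := by group
  exact (mul_left_cancel h1).symm

theorem five_mul (x : G) : x * x * x * x * x = x ^ (5 : ℤ) := by
  rw [show (5 : ℤ) = 1 + 1 + 1 + 1 + 1 by norm_num, zpow_add, zpow_add, zpow_add, zpow_add, zpow_one]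

theorem Vx.fin (h : Vx u v w p q b B) : ∃ D : G, cj u 1 B = D * B ∧ cj u 1 b = b * D ∧
    Commute D u ∧ Commute D B ∧ Commute D b ∧ Commute B b := by
  have six : ∀ x : G, x ^ (6 : ℤ) = x := by
    intro x
    rw [show (6 : ℤ) = 5 + 1 by norm_num, zpow_add, h.e5, one_mul, zpow_one]
  have a : ∀ k : ℤ, cj u k b * cj u 1 B = B * cj u (k + 1) b := by
    intro k
    have h1 := h.Phi 1 1 1 k (by norm_num)
    norm_num at h1
    exact h1
  have bb : ∀ k : ℤ, (cj u k b)⁻¹ * cj u 1 B = B * (cj u (k - 1) b)⁻¹ := by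
    intro k
    have h1 := h.Phi 1 (-1) (-1) k (by norm_num)
    norm_num at h1
    rw [sub_eq_add_neg]
    exact h1
  have c : ∀ k : ℤ, (cj u k b) ^ (2 : ℤ) * cj u 1 B = B * (cj u (k + 3) b) ^ (2 : ℤ) := by
    intro k
    have h1 := h.Phi 1 2 3 k (by rw [show (3 * 2 : ℤ) = 6 by norm_num]; exact six B)
    rw [show (1 * 2 : ℤ) = 2 by norm_num] at h1
    exact h1
  have d : ∀ k : ℤ, cj u k b * cj u 2 B = B * cj u (k + 2) b := by
    intro k
    have h1 := h.Phi 2 3 2 k (by rw [show (2 * 3 : ℤ) = 6 by norm_num]; exact six B)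
    rw [show (2 * 3 : ℤ) = 6 by norm_num, six, six] at h1
    exact h1
  obtain ⟨D, hD⟩ : ∃ D, D = cj u 1 B * B⁻¹ := ⟨_, rfl⟩
  have hDB : cj u 1 B = D * B := by rw [hD]; group
  have ii : ∀ k : ℤ, D = (cj u k b * cj u k b)⁻¹ * cj u (k + 2) b * cj u (k + 4) b := by
    intro k
    -- (i) for `k + 2`
    have i1 := a (k + 2)
    have i2 := bb (k + 4)
    have i3 := c k
    rw [show k + 2 + 1 = k + 3 by ring] at i1
    rw [show k + 4 - 1 = k + 3 by ring] at i2
    rw [show (2 : ℤ) = 1 + 1 by norm_num, zpow_add, zpow_add, zpow_one, zpow_one] at i3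
    have j1 : cj u 1 B = (cj u (k + 2) b)⁻¹ * (B * cj u (k + 3) b) := by rw [← i1]; group
    have j2 : cj u 1 B = cj u (k + 4) b * (B * (cj u (k + 3) b)⁻¹) := by rw [← i2]; group
    have j3 : B * (cj u (k + 3) b * cj u (k + 3) b) = cj u (k + 2) b * cj u (k + 4) b * B := by
      have j4 : (cj u (k + 2) b)⁻¹ * (B * cj u (k + 3) b) =
          cj u (k + 4) b * (B * (cj u (k + 3) b)⁻¹) := by rw [← j1, j2]
      calc B * (cj u (k + 3) b * cj u (k + 3) b)
          = cj u (k + 2) b * ((cj u (k + 2) b)⁻¹ * (B * cj u (k + 3) b)) * cj u (k + 3) b := by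
            group
        _ = cj u (k + 2) b * (cj u (k + 4) b * (B * (cj u (k + 3) b)⁻¹)) * cj u (k + 3) b := by
            rw [j4]
        _ = _ := by group
    rw [j3] at i3
    have j5 : cj u 1 B = (cj u k b * cj u k b)⁻¹ * (cj u (k + 2) b * cj u (k + 4) b * B) := by
      rw [← i3]; group
    rw [hD, j5]
    group
  have hcD : cj u 1 D = D := by
    have h1 := ii 0
    have h2 := ii 1
    have h3 : cj u 1 D = (cj u 1 b * cj u 1 b)⁻¹ * cj u (1 + 2) b * cj u (1 + 4) b := by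
      rw [h1]
      simp only [cj_mul, cj_inv, cj_cj]
      norm_num
    rw [h3, ← h2]
  have hDu : Commute D u := by
    have h1 : u * D * u⁻¹ = D := by simpa [cj] using hcD
    have h2 : u * D = D * u := by
      calc u * D = u * D * u⁻¹ * u := by group
        _ = D * u := by rw [h1]
    exact h2.symm
  have hB2 : cj u 2 B = D * (D * B) := by
    have h1 : cj u 2 B = cj u 1 (cj u 1 B) := by rw [cj_cj]; norm_num
    rw [h1, hDB, cj_mul, hcD, hDB]
  have hstep : ∀ k : ℤ, cj u (k + 1) b = cj u k b * D := by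
    intro k
    have h1 := d k
    have h2 := a (k + 1)
    rw [hB2] at h1
    rw [hDB, show k + 1 + 1 = k + 2 by ring] at h2
    have h3 : cj u k b * D * (D * B) = cj u (k + 1) b * (D * B) := by
      rw [h2, ← h1]; group
    exact (mul_right_cancel h3).symm
  have hcom : ∀ k : ℤ, Commute B (cj u k b) := by
    intro k
    have h1 := a (k - 1)
    have h2 := hstep (k - 1)
    rw [hDB] at h1
    rw [show k - 1 + 1 = k by ring] at h1 h2
    have h3 : B * cj u k b = cj u k b * B := by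
      rw [← h1, h2]; group
    exact h3
  have hb1 : cj u 1 b = b * D := by
    have h1 := hstep 0
    rw [cj_zero] at h1
    norm_num at h1
    exact h1
  have hBb : Commute B b := by
    have h1 := hcom 0
    rwa [cj_zero] at h1
  have hDB' : Commute D B := by
    have h1 : D = b⁻¹ * cj u 1 b := by rw [hb1]; group
    rw [h1]
    exact ((hBb.inv_right).mul_right (hcom 1)).symm
  have hDb : Commute D b := by
    have h2 : cj u 2 b = b * D * D := by
      have := hstep 1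
      rw [hb1] at this
      norm_num at this
      exact this
    have h3 : cj u 3 b = b * D * D * D := by
      have := hstep 2
      rw [h2] at this
      norm_num at this
      exact this
    have h4 : cj u 4 b = b * D * D * D * D := by
      have := hstep 3
      rw [h3] at this
      norm_num at this
      exact this
    have h5 := ii 0
    rw [cj_zero] at h5
    norm_num at h5
    rw [h2, h4] at h5
    have h6 : D ^ (5 : ℤ) = 1 := h.e5 D
    -- `b D² = D² b`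
    have h7 : b * D = D * D * b * D * D * D * D := by
      calc b * D = b * ((b * b)⁻¹ * (b * D * D) * (b * D * D * D * D)) := by
            conv_lhs => rw [h5]
            group
        _ = _ := by group
    have h8 : b * (D * D) = D * D * b := by
      have e1 : D * D * D * D * D = 1 := by
        rw [five_mul]; exact h6
      calc b * (D * D) = b * D * D := by group
        _ = D * D * b * D * D * D * D * D := by rw [h7]
        _ = D * D * b * (D * D * D * D * D) := by group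
        _ = D * D * b := by rw [e1, mul_one]
    have h9 : D = (D * D) * (D * D) * (D * D) := by
      have e1 : D * D * D * D * D = 1 := by
        rw [five_mul]; exact h6
      calc D = D * D * D * D * D * D := by rw [e1, one_mul]
        _ = _ := by simp only [mul_assoc]
    have h10 : Commute (D * D) b := h8.symm
    rw [h9]
    exact (h10.mul_left h10).mul_left h10
  exact ⟨D, hDB, hb1, hDu, hDB', hDb, hBb⟩

end vertex


section cls3
variable {G : Type} [Group G]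

/-- The second member of the upper central series of `N`. -/
def K2 (N : Subgroup G) : Subgroup G where
  carrier := {x | x ∈ N ∧ ∀ y ∈ N, ∀ z ∈ N, Commute ⁅x, y⁆ z}
  one_mem' := by
    refine ⟨N.one_mem, fun y _ z _ => ?_⟩
    rw [commutatorElement_one_left]
    exact Commute.one_left z
  mul_mem' := by
    rintro u v ⟨hu, hu2⟩ ⟨hv, hv2⟩
    refine ⟨N.mul_mem hu hv, fun y hy z hz => ?_⟩
    have e : ⁅u * v, y⁆ = ⁅v, y⁆ * ⁅u, y⁆ := by
      have e1 : ⁅u * v, y⁆ = u * ⁅v, y⁆ * u⁻¹ * ⁅u, y⁆ := by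
        simp only [commutatorElement_def]; group
      rw [e1, ← (hv2 y hy u hu).eq]; group
    rw [e]
    exact (hv2 y hy z hz).mul_left (hu2 y hy z hz)
  inv_mem' := by
    rintro u ⟨hu, hu2⟩
    refine ⟨N.inv_mem hu, fun y hy z hz => ?_⟩
    have e : ⁅u⁻¹, y⁆ = ⁅u, y⁆⁻¹ := by
      have e1 : ⁅u⁻¹, y⁆ = u⁻¹ * ⁅u, y⁆⁻¹ * u := by
        simp only [commutatorElement_def]; group
      rw [e1, mul_assoc, ((hu2 y hy u hu).inv_left).eq]; group
    rw [e]
    exact (hu2 y hy z hz).inv_left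

theorem mem_K2 {N : Subgroup G} {x : G} :
    x ∈ K2 N ↔ x ∈ N ∧ ∀ y ∈ N, ∀ z ∈ N, Commute ⁅x, y⁆ z := Iff.rfl

theorem K2_conj {N : Subgroup G} {g x : G} (hg : g ∈ N) (hx : x ∈ K2 N) :
    g * x * g⁻¹ ∈ K2 N := by
  obtain ⟨hx1, hx2⟩ := mem_K2.mp hx
  refine mem_K2.mpr ⟨N.mul_mem (N.mul_mem hg hx1) (N.inv_mem hg), fun y hy z hz => ?_⟩
  have h1 : g⁻¹ * y * g ∈ N := N.mul_mem (N.mul_mem (N.inv_mem hg) hy) hg
  have e : ⁅g * x * g⁻¹, y⁆ = ⁅x, g⁻¹ * y * g⁆ := by
    have e1 : ⁅g * x * g⁻¹, y⁆ = g * ⁅x, g⁻¹ * y * g⁆ * g⁻¹ := by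
      simp only [commutatorElement_def]; group
    rw [e1, ← (hx2 _ h1 g hg).eq]; group
  rw [e]
  exact hx2 _ h1 z hz

/-- It is enough to check the second variable on generators. -/
theorem right_gen {S : Set G} {x : G}
    (hS : ∀ y ∈ S, ∀ z ∈ Subgroup.closure S, Commute ⁅x, y⁆ z) :
    ∀ y ∈ Subgroup.closure S, ∀ z ∈ Subgroup.closure S, Commute ⁅x, y⁆ z := by
  intro y hy
  refine Subgroup.closure_induction (p := fun y _ => ∀ z ∈ Subgroup.closure S, Commute ⁅x, y⁆ z)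
    ?_ ?_ ?_ ?_ hy
  · exact hS
  · intro z _
    rw [commutatorElement_one_right]
    exact Commute.one_left z
  · intro u v hu hv h1 h2 z hz
    have e : ⁅x, u * v⁆ = ⁅x, u⁆ * ⁅x, v⁆ := by
      have e1 : ⁅x, u * v⁆ = ⁅x, u⁆ * (u * ⁅x, v⁆ * u⁻¹) := by
        simp only [commutatorElement_def]; group
      rw [e1, ← (h2 u hu).eq]; group
    rw [e]
    exact (h1 z hz).mul_left (h2 z hz)
  · intro u hu h1 z hz
    have e : ⁅x, u⁻¹⁆ = ⁅x, u⁆⁻¹ := by
      have e1 : ⁅x, u⁻¹⁆ = u⁻¹ * ⁅x, u⁆⁻¹ * u := by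
        simp only [commutatorElement_def]; group
      rw [e1, mul_assoc, ((h1 u hu).inv_left).eq]; group
    rw [e]
    exact (h1 z hz).inv_left

/-- Commutators lie in `K` if those of generators do. -/
theorem comm_gen {S : Set G} {K : Subgroup G}
    (hK : ∀ g ∈ Subgroup.closure S, ∀ k ∈ K, g * k * g⁻¹ ∈ K)
    (hS : ∀ x ∈ S, ∀ y ∈ S, ⁅x, y⁆ ∈ K) :
    ∀ x ∈ Subgroup.closure S, ∀ y ∈ Subgroup.closure S, ⁅x, y⁆ ∈ K := by
  have step : ∀ y : G, (∀ x ∈ S, ⁅x, y⁆ ∈ K) → ∀ x ∈ Subgroup.closure S, ⁅x, y⁆ ∈ K := by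
    intro y hy x hx
    refine Subgroup.closure_induction (p := fun x _ => ⁅x, y⁆ ∈ K) ?_ ?_ ?_ ?_ hx
    · exact hy
    · rw [commutatorElement_one_left]; exact K.one_mem
    · intro u v hu _ h1 h2
      have e1 : ⁅u * v, y⁆ = u * ⁅v, y⁆ * u⁻¹ * ⁅u, y⁆ := by
        simp only [commutatorElement_def]; group
      rw [e1]
      exact K.mul_mem (hK u hu _ h2) h1
    · intro u hu h1
      have e1 : ⁅u⁻¹, y⁆ = u⁻¹ * ⁅u, y⁆⁻¹ * u⁻¹⁻¹ := by
        simp only [commutatorElement_def]; group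
      rw [e1]
      exact hK u⁻¹ (Subgroup.inv_mem _ hu) _ (K.inv_mem h1)
  intro x hx y hy
  refine step y ?_ x hx
  intro u hu
  rw [← commutatorElement_inv]
  refine K.inv_mem (step u ?_ y hy)
  intro v hv
  exact hS v hv u hu

end cls3

section steps
variable {G : Type} [Group G]

theorem stepH {u v b C D : G} (hD : u * b * u⁻¹ = b * D) (hbv : Commute b v)
    (hC : u * v = v * u * C) (hCv : Commute C v) (hCb : Commute C b) : Commute D v := by
  have h1 : v * u * v⁻¹ = u * C⁻¹ := by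
    have e : v * u = u * v * C⁻¹ := by rw [hC]; group
    rw [e, mul_assoc u v, ← (hCv.inv_left).eq]; group
  have h2 : v * b * v⁻¹ = b := by rw [← hbv.eq]; group
  have h3 : D = b⁻¹ * (u * b * u⁻¹) := by rw [hD]; group
  have h4 : v * D * v⁻¹ = D := by
    calc v * D * v⁻¹ = (v * b * v⁻¹)⁻¹ * ((v * u * v⁻¹) * (v * b * v⁻¹) * (v * u * v⁻¹)⁻¹) := by
          rw [h3]; group
      _ = b⁻¹ * (u * (C⁻¹ * b) * C * u⁻¹) := by rw [h1, h2]; group
      _ = b⁻¹ * (u * (b * C⁻¹) * C * u⁻¹) := by rw [(hCb.inv_left).eq]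
      _ = D := by rw [h3]; group
  have h5 : v * D = D * v := by
    calc v * D = v * D * v⁻¹ * v := by group
      _ = D * v := by rw [h4]
  exact h5.symm

theorem stepI {u q B C D : G} (hD : u * B * u⁻¹ = D * B) (hBq : Commute B q)
    (hC : q * u = u * q * C) (hCq : Commute C q) (hCB : Commute C B) : Commute D q := by
  have h1 : q * u * q⁻¹ = u * C := by
    rw [hC, mul_assoc u q, ← hCq.eq]; group
  have h2 : q * B * q⁻¹ = B := by rw [← hBq.eq]; group
  have h3 : D = u * B * u⁻¹ * B⁻¹ := by rw [hD]; group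
  have h4 : q * D * q⁻¹ = D := by
    calc q * D * q⁻¹ = (q * u * q⁻¹) * (q * B * q⁻¹) * (q * u * q⁻¹)⁻¹ * (q * B * q⁻¹)⁻¹ := by
          rw [h3]; group
      _ = u * (C * B) * C⁻¹ * u⁻¹ * B⁻¹ := by rw [h1, h2]; group
      _ = u * (B * C) * C⁻¹ * u⁻¹ * B⁻¹ := by rw [hCB.eq]
      _ = D := by rw [h3]; group
  have h5 : q * D = D * q := by
    calc q * D = q * D * q⁻¹ * q := by group
      _ = D * q := by rw [h4]
  exact h5.symm

theorem stepK {u v w b B D : G} (hD : u * b * u⁻¹ = b * D) (hbv : Commute b v)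
    (hbw : Commute b w) (hBb : Commute B b) (hDu : Commute D u) (hDB : Commute D B)
    (hDv : Commute D v)
    (hE : w * u * w⁻¹ = v⁻¹ * u⁻¹ * B * u * u * b * v) : Commute D w := by
  have h1 : b⁻¹ * u * b = D * u := by
    have e : D = b⁻¹ * (u * b * u⁻¹) := by rw [hD]; group
    rw [e]; group
  have h2 : b⁻¹ * B * b = B := by rw [mul_assoc, hBb.eq]; group
  have h3 : b⁻¹ * v * b = v := by rw [mul_assoc, ← hbv.eq]; group
  have h4 : w * b * w⁻¹ = b := by rw [← hbw.eq]; group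
  have h5 : D = b⁻¹ * (u * b * u⁻¹) := by rw [hD]; group
  have h6 : b⁻¹ * (w * u * w⁻¹) * b = D * (w * u * w⁻¹) := by
    rw [hE]
    have e1 : b⁻¹ * (v⁻¹ * u⁻¹ * B * u * u * b * v) * b = (b⁻¹ * v * b)⁻¹ * (b⁻¹ * u * b)⁻¹ *
        (b⁻¹ * B * b) * (b⁻¹ * u * b) * (b⁻¹ * u * b) * b * (b⁻¹ * v * b) := by group
    rw [e1, h1, h2, h3]
    have c1 : Commute D (v⁻¹ * u⁻¹) := (hDv.inv_right).mul_right hDu.inv_right
    have c2 : Commute D (B * (D * u)) := hDB.mul_right ((Commute.refl D).mul_right hDu)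
    calc v⁻¹ * (D * u)⁻¹ * B * (D * u) * (D * u) * b * v
        = v⁻¹ * u⁻¹ * D⁻¹ * ((B * (D * u)) * D) * u * b * v := by group
      _ = v⁻¹ * u⁻¹ * D⁻¹ * (D * (B * (D * u))) * u * b * v := by rw [c2.eq]
      _ = v⁻¹ * u⁻¹ * (B * D) * u * u * b * v := by group
      _ = v⁻¹ * u⁻¹ * (D * B) * u * u * b * v := by rw [hDB.eq]
      _ = (v⁻¹ * u⁻¹ * D) * B * u * u * b * v := by group
      _ = (D * (v⁻¹ * u⁻¹)) * B * u * u * b * v := by rw [c1.eq]
      _ = _ := by group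
  have h7 : w * D * w⁻¹ = D := by
    calc w * D * w⁻¹ = (w * b * w⁻¹)⁻¹ * ((w * u * w⁻¹) * (w * b * w⁻¹) * (w * u * w⁻¹)⁻¹) := by
          rw [h5]; group
      _ = (b⁻¹ * (w * u * w⁻¹) * b) * (w * u * w⁻¹)⁻¹ := by rw [h4]; group
      _ = D := by rw [h6]; group
  have h8 : w * D = D * w := by
    calc w * D = w * D * w⁻¹ * w := by group
      _ = D * w := by rw [h7]
  exact h8.symm

end steps


section main
variable {G : Type} [Group G]

/-- Exponent 5, and `a`, `b⁻¹ a b` generate a group of class at most 2. -/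
structure CT (a b : G) : Prop where
  e5 : ∀ g : G, g ^ 5 = 1
  c1 : Commute ⁅a, b⁻¹ * a * b⁆ a
  c2 : Commute ⁅a, b⁻¹ * a * b⁆ (b⁻¹ * a * b)

/-- `B_0 = [a_0, a_1]`. -/
def B0 (a b : G) : G := ⁅a, f b 1 a⁆

/-- The subgroup generated by the `a_k`. -/
def NN (a b : G) : Subgroup G := Subgroup.closure (Set.range (fun k : ℕ => f b k a))

variable {a b : G}

theorem CT.hb (h : CT a b) : b ^ 5 = 1 := h.e5 b

theorem CT.four (h : CT a b) (y : G) : f b 4 y = b⁻¹ * y * b := by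
  have h2 : b ^ 4 = b⁻¹ := by
    apply eq_inv_of_mul_eq_one_left
    rw [← pow_succ, h.hb]
  rw [f_apply, h2, inv_inv]

theorem CT.f5 (h : CT a b) (y : G) : f b 5 y = y := by
  have := f_five h.hb 0 y
  rw [f_zero] at this
  exact this

theorem CT.com (h : CT a b) : Commute (B0 a b) a ∧ Commute (B0 a b) (f b 1 a) := by
  have h1 := h.c1.map (f b 1)
  have h2 := h.c2.map (f b 1)
  rw [← h.four, map_commutatorElement, f_f, h.f5] at h1
  rw [← h.four, map_commutatorElement, f_f, h.f5] at h2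
  have h3 : B0 a b = ⁅f b 1 a, a⁆⁻¹ := by rw [B0, commutatorElement_inv]
  rw [h3]
  exact ⟨h2.inv_left, h1.inv_left⟩

theorem CT.cm0 (h : CT a b) (k : ℕ) : Commute (f b k (B0 a b)) (f b k a) := h.com.1.map _

theorem CT.cm1 (h : CT a b) (k : ℕ) : Commute (f b k (B0 a b)) (f b (k + 1) a) := by
  have := h.com.2.map (f b k)
  rwa [f_f] at this

theorem CT.sw (h : CT a b) (k : ℕ) :
    f b k a * f b (k + 1) a = f b (k + 1) a * f b k a * f b k (B0 a b) := by
  have h1 : a * f b 1 a = f b 1 a * a * B0 a b := by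
    have e : Commute (B0 a b) (f b 1 a * a) := h.com.2.mul_right h.com.1
    rw [← e.eq, B0, commutatorElement_def]; group
  rw [← f_f, ← map_mul, ← map_mul, ← map_mul, h1]

theorem CT.e5z (h : CT a b) (x : G) : x ^ (5 : ℤ) = 1 := by
  have := h.e5 x
  rw [← zpow_natCast] at this
  exact_mod_cast this

theorem CT.rel (h : CT a b) (s : ℤ) :
    (f b 4 a) ^ s * a ^ s * (f b 1 a) ^ s = ((f b 2 a) ^ s * (f b 3 a) ^ s)⁻¹ := by
  obtain ⟨x, hx⟩ : ∃ x, x = a ^ s := ⟨_, rfl⟩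
  rw [← map_zpow, ← map_zpow, ← map_zpow, ← map_zpow, ← hx]
  have h1 : x * f b 1 x * f b 2 x * f b 3 x * f b 4 x * b ^ 5 = (x * b) ^ 5 := by
    have h0 : (x * b) ^ 5 = x * b * (x * b) * (x * b) * (x * b) * (x * b) := by
      simp only [pow_succ, pow_zero, one_mul]
    rw [h0]
    simp only [f_apply]
    group
  rw [h.hb, mul_one, h.e5 (x * b)] at h1
  have h2 : (x * f b 1 x) * (f b 2 x * f b 3 x * f b 4 x) = 1 := by
    rw [← h1]; group
  have h3 := eq_inv_of_mul_eq_one_left h2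
  rw [mul_assoc (f b 4 x), h3]
  group

theorem CT.vx (h : CT a b) : Vx (f b 4 a) a (f b 1 a) (f b 2 a) (f b 3 a) (B0 a b)
    (f b 2 (B0 a b)) where
  hb := by
    have := h.sw 0
    rwa [f_zero, f_zero] at this
  hbv := h.com.1
  hbw := h.com.2
  hB := h.sw 2
  hBp := h.cm0 2
  hBq := h.cm1 2
  rel := h.rel
  e5 := h.e5z

/-- All `B_i` commute, as soon as `B_0` and `B_2` do. -/
theorem all_comm (e5 : ∀ g : G, g ^ 5 = 1) {x : G} (hx : Commute x (f b 2 x)) (i j : ℕ) :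
    Commute (f b i x) (f b j x) := by
  have hb : b ^ 5 = 1 := e5 b
  have hinv : (b ^ 3)⁻¹ = b ^ 2 := by
    symm
    apply eq_inv_of_mul_eq_one_left
    rw [← pow_add, hb]
  have hH : Hyp (Subgroup.zpowers x) (b ^ 3) := by
    refine ⟨e5 _, fun a _ => e5 _, ?_⟩
    intro y hy z hz
    obtain ⟨m, rfl⟩ := Subgroup.mem_zpowers_iff.mp hy
    obtain ⟨n, rfl⟩ := Subgroup.mem_zpowers_iff.mp hz
    have e : (b ^ 3)⁻¹ * x ^ n * b ^ 3 = (f b 2 x) ^ n := by
      rw [← map_zpow, f_apply, hinv]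
      congr 1
      rw [← hinv, inv_inv]
    rw [e]
    exact (hx.zpow_left m).zpow_right n
  have h3 : ∀ k : ℕ, f (b ^ 3) (2 * k) x = f b k x := by
    intro k
    have e : (b ^ 3) ^ (2 * k) = b ^ k := by
      rw [← pow_mul, show 3 * (2 * k) = 5 * k + k by ring, pow_add, pow_mul, hb, one_pow, one_mul]
    rw [f_apply, f_apply, e]
  have h1 := hH.all (Subgroup.mem_zpowers x) (Subgroup.mem_zpowers x) (Commute.refl x) (2 * i)
    (2 * j)
  rwa [h3, h3] at h1

/-- `z` commutes with all `a_l`. -/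
def Ce (a b z : G) : Prop := ∀ l : ℕ, Commute z (f b l a)

theorem Ce.one : Ce a b 1 := fun _ => Commute.one_left _

theorem Ce.mul {z w : G} (hz : Ce a b z) (hw : Ce a b w) : Ce a b (z * w) :=
  fun l => (hz l).mul_left (hw l)

theorem Ce.inv {z : G} (hz : Ce a b z) : Ce a b z⁻¹ := fun l => (hz l).inv_left

theorem Ce.f {z : G} (hb : b ^ 5 = 1) (hz : Ce a b z) (k : ℕ) : Ce a b (f b k z) := by
  intro l
  rw [shift b hb k l a]
  exact (hz _).map _

theorem Ce.mem {z y : G} (hz : Ce a b z) (hy : y ∈ NN a b) : Commute z y := by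
  have hle : NN a b ≤ Subgroup.centralizer {z} := by
    rw [NN, Subgroup.closure_le]
    rintro _ ⟨k, rfl⟩
    rw [SetLike.mem_coe, Subgroup.mem_centralizer_singleton_iff]
    exact (hz k).eq.symm
  have h1 := hle hy
  rw [Subgroup.mem_centralizer_singleton_iff] at h1
  exact Commute.symm h1

theorem f_mem_NN (k : ℕ) : f b k a ∈ NN a b := Subgroup.subset_closure ⟨k, rfl⟩

theorem a_mem_NN : a ∈ NN a b := by
  have := f_mem_NN (a := a) (b := b) 0
  rwa [f_zero] at this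

theorem Ce.cmul {x g h : G} (hg : g ∈ NN a b) (h1 : Ce a b ⁅x, g⁆) (h2 : Ce a b ⁅x, h⁆) :
    Ce a b ⁅x, g * h⁆ := by
  have e : ⁅x, g * h⁆ = ⁅x, g⁆ * ⁅x, h⁆ := by
    have e1 : ⁅x, g * h⁆ = ⁅x, g⁆ * (g * ⁅x, h⁆ * g⁻¹) := by
      simp only [commutatorElement_def]; group
    rw [e1, ← (h2.mem hg).eq]; group
  rw [e]
  exact h1.mul h2

theorem Ce.cinv {x g : G} (hg : g ∈ NN a b) (h1 : Ce a b ⁅x, g⁆) : Ce a b ⁅x, g⁻¹⁆ := by
  have e : ⁅x, g⁻¹⁆ = ⁅x, g⁆⁻¹ := by
    have e1 : ⁅x, g⁻¹⁆ = g⁻¹ * ⁅x, g⁆⁻¹ * g := by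
      simp only [commutatorElement_def]; group
    rw [e1, mul_assoc, ((h1.mem hg).inv_left).eq]; group
  rw [e]
  exact h1.inv

theorem f_mem_of {y : G} (k : ℕ) (hy : y ∈ NN a b) : f b k y ∈ NN a b := by
  have h1 : f b k y ∈ (NN a b).map (f b k) := Subgroup.mem_map_of_mem _ hy
  rw [NN, MonoidHom.map_closure] at h1
  refine Subgroup.closure_mono ?_ h1
  rintro _ ⟨_, ⟨l, rfl⟩, rfl⟩
  exact ⟨k + l, (f_f b k l a).symm⟩

theorem K2_f (hb : b ^ 5 = 1) {x : G} (k : ℕ) (hx : x ∈ K2 (NN a b)) : f b k x ∈ K2 (NN a b) := by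
  obtain ⟨h1, h2⟩ := mem_K2.mp hx
  have e : ∀ y : G, f b k (f b (4 * k) y) = y := by
    intro y
    rw [f_f, show k + 4 * k = 5 * k by ring, f_mod hb]
    simp [f_zero]
  refine mem_K2.mpr ⟨f_mem_of k h1, fun y hy z hz => ?_⟩
  rw [← e y, ← e z, ← map_commutatorElement]
  exact (h2 _ (f_mem_of _ hy) _ (f_mem_of _ hz)).map _

theorem CT.main (h : CT a b) : ∀ x ∈ NN a b, ∀ y ∈ NN a b, ⁅x, y⁆ ∈ K2 (NN a b) := by
  obtain ⟨D, d1, d2, hDu, hDB, hDb, hBb⟩ := h.vx.fin
  have hu : ∀ x : G, cj (f b 4 a) 1 x = f b 4 a * x * (f b 4 a)⁻¹ := by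
    intro x; simp [cj]
  rw [hu] at d1 d2
  have hBB : ∀ i j : ℕ, Commute (f b i (B0 a b)) (f b j (B0 a b)) := all_comm h.e5 hBb.symm
  have hB0 : B0 a b = f b 0 (B0 a b) := by rw [f_zero]
  have s4 := h.sw 4
  rw [h.f5] at s4
  have m4 := h.cm1 4
  rw [h.f5] at m4
  -- `D` commutes with all `a_l`
  have Dv : Commute D a := stepH d2 h.com.1 s4 m4 (by
    have := hBB 4 0
    rwa [f_zero] at this)
  have Dq : Commute D (f b 3 a) := stepI d1 (h.cm1 2) (h.sw 3) (h.cm0 3) (hBB 3 2)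
  have hE : f b 1 a * f b 4 a * (f b 1 a)⁻¹ =
      a⁻¹ * (f b 4 a)⁻¹ * f b 2 (B0 a b) * f b 4 a * f b 4 a * B0 a b * a := by
    have e1 := h.vx.E 1 1
    simp only [zpow_one, mul_one, zpow_add] at e1
    have e2 : f b 1 a * f b 4 a * (f b 1 a)⁻¹ = a⁻¹ * (f b 4 a)⁻¹ *
        (f b 4 a * (a * f b 1 a) * f b 4 a * (a * f b 1 a)⁻¹) * a := by group
    rw [e2, e1]
    simp only [mul_assoc]
  have Dw : Commute D (f b 1 a) := stepK d2 h.com.1 h.com.2 hBb hDu hDB Dv hE
  have r1 := h.rel 1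
  simp only [zpow_one] at r1
  have Dp : Commute D (f b 2 a) := by
    have e : f b 2 a = (f b 4 a * a * f b 1 a)⁻¹ * (f b 3 a)⁻¹ := by rw [r1]; group
    rw [e]
    exact (((hDu.mul_right Dv).mul_right Dw).inv_right).mul_right Dq.inv_right
  have hD : Ce a b D := by
    intro l
    rw [f_mod h.hb]
    have hd : l % 5 < 5 := Nat.mod_lt _ (by norm_num)
    generalize l % 5 = e at hd
    interval_cases e
    · rwa [f_zero]
    · exact Dw
    · exact Dp
    · exact Dq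
    · exact hDu
  -- `[B_0, a_j]` is central
  have t0 : Ce a b ⁅B0 a b, a⁆ := by rw [h.com.1.commutator_eq]; exact Ce.one
  have t1 : Ce a b ⁅B0 a b, f b 1 a⁆ := by rw [h.com.2.commutator_eq]; exact Ce.one
  have t4 : Ce a b ⁅B0 a b, f b 4 a⁆ := by
    have e : ⁅B0 a b, f b 4 a⁆ = D⁻¹ := by
      have e1 : ⁅B0 a b, f b 4 a⁆ = B0 a b * (f b 4 a * B0 a b * (f b 4 a)⁻¹)⁻¹ := by
        rw [commutatorElement_def]; group
      rw [e1, d2, ← hDb.eq]; group
    rw [e]
    exact hD.inv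
  have t2 : Ce a b ⁅B0 a b, f b 2 a⁆ := by
    have e : ⁅f b 2 (B0 a b), f b 4 a⁆ = D⁻¹ := by
      have e1 : ⁅f b 2 (B0 a b), f b 4 a⁆ =
          f b 2 (B0 a b) * (f b 4 a * f b 2 (B0 a b) * (f b 4 a)⁻¹)⁻¹ := by
        rw [commutatorElement_def]; group
      rw [e1, d1]; group
    have h1 : Ce a b (f b 3 ⁅f b 2 (B0 a b), f b 4 a⁆) := by
      rw [e]; exact (hD.inv).f h.hb 3
    rw [map_commutatorElement, f_f, f_f, h.f5, f_five h.hb 2] at h1
    exact h1
  have t3 : Ce a b ⁅B0 a b, f b 3 a⁆ := by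
    have e : f b 3 a = (f b 2 a)⁻¹ * (f b 4 a * a * f b 1 a)⁻¹ := by rw [r1]; group
    rw [e]
    have m : f b 4 a * a * f b 1 a ∈ NN a b :=
      (NN a b).mul_mem ((NN a b).mul_mem (f_mem_NN 4) a_mem_NN) (f_mem_NN 1)
    refine Ce.cmul ((NN a b).inv_mem (f_mem_NN 2)) (Ce.cinv (f_mem_NN 2) t2) (Ce.cinv m ?_)
    exact Ce.cmul ((NN a b).mul_mem (f_mem_NN 4) a_mem_NN) (Ce.cmul (f_mem_NN 4) t4 t0) t1
  have hBa : ∀ l : ℕ, Ce a b ⁅B0 a b, f b l a⁆ := by
    intro l
    rw [f_mod h.hb]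
    have hd : l % 5 < 5 := Nat.mod_lt _ (by norm_num)
    generalize l % 5 = e at hd
    interval_cases e
    · rwa [f_zero]
    · exact t1
    · exact t2
    · exact t3
    · exact t4
  have hB0m : B0 a b ∈ NN a b := by
    rw [B0, commutatorElement_def]
    exact (NN a b).mul_mem ((NN a b).mul_mem ((NN a b).mul_mem a_mem_NN (f_mem_NN 1))
      ((NN a b).inv_mem a_mem_NN)) ((NN a b).inv_mem (f_mem_NN 1))
  have hBK : B0 a b ∈ K2 (NN a b) := by
    refine mem_K2.mpr ⟨hB0m, ?_⟩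
    refine right_gen ?_
    rintro _ ⟨l, rfl⟩ z hz
    exact (hBa l).mem hz
  have hBk : ∀ k : ℕ, f b k (B0 a b) ∈ K2 (NN a b) := fun k => K2_f h.hb k hBK
  -- commutators of generators
  have k1 : ⁅a, f b 1 a⁆ ∈ K2 (NN a b) := hBK
  have k4 : ⁅a, f b 4 a⁆ ∈ K2 (NN a b) := by
    have h1 := hBk 4
    rw [B0, map_commutatorElement, f_f, h.f5] at h1
    have h2 := (K2 (NN a b)).inv_mem h1
    rwa [commutatorElement_inv] at h2
  have k14 : ⁅f b 1 a, f b 4 a⁆ ∈ K2 (NN a b) := by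
    have hC : a⁻¹ * f b 4 a * a * (f b 4 a)⁻¹ = f b 4 (B0 a b) := by
      have e1 : f b 4 a * a = a * f b 4 a * f b 4 (B0 a b) := s4
      calc a⁻¹ * f b 4 a * a * (f b 4 a)⁻¹ = a⁻¹ * (f b 4 a * a) * (f b 4 a)⁻¹ := by group
        _ = f b 4 a * f b 4 (B0 a b) * (f b 4 a)⁻¹ := by rw [e1]; group
        _ = f b 4 (B0 a b) := by rw [← (h.cm0 4).eq]; group
    have e : ⁅f b 1 a, f b 4 a⁆ =
        ((a⁻¹ * (f b 4 a)⁻¹) * f b 2 (B0 a b) * (a⁻¹ * (f b 4 a)⁻¹)⁻¹) * f b 4 (B0 a b) *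
          (f b 4 a * B0 a b * (f b 4 a)⁻¹) := by
      have hba : B0 a b * a = a * B0 a b := h.com.1.eq
      calc ⁅f b 1 a, f b 4 a⁆ = (f b 1 a * f b 4 a * (f b 1 a)⁻¹) * (f b 4 a)⁻¹ := by
            rw [commutatorElement_def]
        _ = (a⁻¹ * (f b 4 a)⁻¹ * f b 2 (B0 a b) * f b 4 a * f b 4 a * (B0 a b * a)) *
              (f b 4 a)⁻¹ := by rw [hE]; group
        _ = (a⁻¹ * (f b 4 a)⁻¹ * f b 2 (B0 a b) * f b 4 a * f b 4 a * (a * B0 a b)) *
              (f b 4 a)⁻¹ := by rw [hba]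
        _ = ((a⁻¹ * (f b 4 a)⁻¹) * f b 2 (B0 a b) * (a⁻¹ * (f b 4 a)⁻¹)⁻¹) *
              (a⁻¹ * f b 4 a * a * (f b 4 a)⁻¹) * (f b 4 a * B0 a b * (f b 4 a)⁻¹) := by group
        _ = _ := by rw [hC]
    rw [e]
    refine (K2 (NN a b)).mul_mem ((K2 (NN a b)).mul_mem ?_ (hBk 4)) ?_
    · exact K2_conj ((NN a b).mul_mem ((NN a b).inv_mem a_mem_NN)
        ((NN a b).inv_mem (f_mem_NN 4))) (hBk 2)
    · exact K2_conj (f_mem_NN 4) hBK
  have k3 : ⁅a, f b 3 a⁆ ∈ K2 (NN a b) := by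
    have h1 := K2_f h.hb 4 k14
    rw [map_commutatorElement, f_f, f_f, h.f5, f_five h.hb 3] at h1
    exact h1
  have k2 : ⁅a, f b 2 a⁆ ∈ K2 (NN a b) := by
    have h1 := K2_f h.hb 2 k3
    rw [map_commutatorElement, f_f, h.f5] at h1
    have h2 := (K2 (NN a b)).inv_mem h1
    rwa [commutatorElement_inv] at h2
  have kd : ∀ d : ℕ, ⁅a, f b d a⁆ ∈ K2 (NN a b) := by
    intro d
    rw [f_mod h.hb]
    have hd : d % 5 < 5 := Nat.mod_lt _ (by norm_num)
    generalize d % 5 = e at hd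
    interval_cases e
    · rw [f_zero, commutatorElement_self]; exact Subgroup.one_mem _
    · exact k1
    · exact k2
    · exact k3
    · exact k4
  refine comm_gen (K := K2 (NN a b)) ?_ ?_
  · intro g hg k hk
    exact K2_conj hg hk
  · rintro _ ⟨k, rfl⟩ _ ⟨l, rfl⟩
    change ⁅f b k a, f b l a⁆ ∈ K2 (NN a b)
    rw [shift b h.hb k l a, ← map_commutatorElement]
    exact K2_f h.hb k (kd _)

theorem CT.class3 (h : CT a b) : ∀ x ∈ NN a b, ∀ y ∈ NN a b, ∀ z ∈ NN a b, ∀ t ∈ NN a b,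
    Commute ⁅⁅x, y⁆, z⁆ t := by
  intro x hx y hy z hz t ht
  exact (mem_K2.mp (h.main x hx y hy)).2 z hz t ht

end main


section final
variable {G : Type} [Group G] {a b : G}

theorem NN_eq (a b : G) : NN a b = M (Subgroup.closure {a}) b := by
  apply le_antisymm
  · rw [NN, Subgroup.closure_le]
    rintro _ ⟨k, rfl⟩
    exact f_mem_M (A := Subgroup.closure {a}) (Subgroup.subset_closure (Set.mem_singleton a)) k
  · rw [M, Subgroup.closure_le]
    rintro _ ⟨k, x, hx, rfl⟩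
    rw [← Subgroup.zpowers_eq_closure, Subgroup.mem_zpowers_iff] at hx
    obtain ⟨n, rfl⟩ := hx
    rw [map_zpow]
    exact Subgroup.zpow_mem _ (f_mem_NN k) n

theorem sup_eq (a b : G) :
    Subgroup.closure {a} ⊔ Subgroup.zpowers b = Subgroup.closure {a, b} := by
  rw [Subgroup.zpowers_eq_closure, ← Subgroup.closure_union]
  rfl

theorem ncl_le (hb : b ^ 5 = 1) : ncl a b ≤ NN a b := by
  rw [ncl, Subgroup.closure_le]
  rintro _ ⟨g, hg, rfl⟩
  rw [SetLike.mem_coe, NN_eq]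
  rw [← sup_eq] at hg
  refine conj_mem hb hg a ?_
  rw [← NN_eq]
  exact a_mem_NN

/-- A torsion subgroup of class 3 is locally finite. -/
theorem locFin_of_class3 (ht : ∀ a : G, ∃ n : ℕ, 0 < n ∧ a ^ n = 1) (N : Subgroup G) [N.Normal]
    (hN : ∀ x ∈ N, ∀ y ∈ N, ∀ z ∈ N, ∀ t ∈ N, Commute ⁅⁅x, y⁆, z⁆ t) : LocFin N := by
  have hcm : ∀ x ∈ N, ∀ y ∈ N, ⁅x, y⁆ ∈ N := by
    intro x hx y hy
    rw [commutatorElement_def]
    exact N.mul_mem (N.mul_mem (N.mul_mem hx hy) (N.inv_mem hx)) (N.inv_mem hy)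
  have hD : LocFin ⁅N, N⁆ := by
    have hcomm : ∀ x ∈ ⁅N, N⁆, ∀ y ∈ ⁅N, N⁆, x * y = y * x := by
      rw [Subgroup.commutator_def]
      refine closure_comm ?_
      rintro _ ⟨x, hx, y, hy, rfl⟩ _ ⟨z, hz, w, hw, rfl⟩
      obtain ⟨g, hg⟩ : ∃ g, g = ⁅x, y⁆ := ⟨_, rfl⟩
      rw [← hg]
      have c1 : ∀ t ∈ N, Commute ⁅g, z⁆ t := fun t ht' => by
        rw [hg]; exact hN x hx y hy z hz t ht'
      have c2 : ∀ t ∈ N, Commute ⁅g, w⁆ t := fun t ht' => by
        rw [hg]; exact hN x hx y hy w hw t ht'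
      have e1 : g * z * g⁻¹ = ⁅g, z⁆ * z := by rw [commutatorElement_def]; group
      have e2 : g * w * g⁻¹ = ⁅g, w⁆ * w := by rw [commutatorElement_def]; group
      have d2 : ⁅g, w⁆ ∈ N := hcm _ (by rw [hg]; exact hcm x hx y hy) w hw
      have e3 : g * ⁅z, w⁆ * g⁻¹ = ⁅z, w⁆ := by
        calc g * ⁅z, w⁆ * g⁻¹ = (g * z * g⁻¹) * (g * w * g⁻¹) * (g * z * g⁻¹)⁻¹ *
              (g * w * g⁻¹)⁻¹ := by rw [commutatorElement_def]; group
          _ = ⁅g, z⁆ * (z * (⁅g, w⁆ * w) * z⁻¹) * ⁅g, z⁆⁻¹ * w⁻¹ * ⁅g, w⁆⁻¹ := by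
              rw [e1, e2]; group
          _ = (z * (⁅g, w⁆ * w) * z⁻¹) * ⁅g, z⁆ * ⁅g, z⁆⁻¹ * w⁻¹ * ⁅g, w⁆⁻¹ := by
              rw [(c1 _ (N.mul_mem (N.mul_mem hz (N.mul_mem d2 hw)) (N.inv_mem hz))).eq]
          _ = (z * ⁅g, w⁆) * w * z⁻¹ * w⁻¹ * ⁅g, w⁆⁻¹ := by group
          _ = (⁅g, w⁆ * z) * w * z⁻¹ * w⁻¹ * ⁅g, w⁆⁻¹ := by rw [(c2 z hz).eq]
          _ = ⁅g, w⁆ * ⁅z, w⁆ * ⁅g, w⁆⁻¹ := by simp only [commutatorElement_def, mul_assoc]
          _ = ⁅z, w⁆ := by rw [(c2 _ (hcm z hz w hw)).eq]; group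
      calc g * ⁅z, w⁆ = g * ⁅z, w⁆ * g⁻¹ * g := by group
        _ = ⁅z, w⁆ * g := by rw [e3]
    intro S hS hSD
    refine finite_of_comm _ ⟨hS.toFinset, by simp⟩ ?_ ht
    have hle : Subgroup.closure S ≤ ⁅N, N⁆ := (Subgroup.closure_le _).mpr hSD
    exact fun a ha b hb => hcomm a (hle ha) b (hle hb)
  refine locFin_ext hD ?_
  intro S hS hSN
  rw [MonoidHom.map_closure]
  refine finite_of_comm _ ⟨(hS.image (QuotientGroup.mk' ⁅N, N⁆)).toFinset, by simp⟩ ?_ ?_
  · refine closure_comm ?_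
    rintro _ ⟨x, hx, rfl⟩ _ ⟨y, hy, rfl⟩
    rw [← map_mul, ← map_mul, QuotientGroup.mk'_apply, QuotientGroup.mk'_apply, QuotientGroup.eq]
    have h1 : ⁅y⁻¹, x⁻¹⁆ ∈ ⁅N, N⁆ :=
      Subgroup.commutator_mem_commutator (N.inv_mem (hSN hy)) (N.inv_mem (hSN hx))
    have h2 : (x * y)⁻¹ * (y * x) = ⁅y⁻¹, x⁻¹⁆ := by
      rw [commutatorElement_def]; group
    rw [h2]
    exact h1
  · intro a
    obtain ⟨a, rfl⟩ := QuotientGroup.mk'_surjective _ a
    obtain ⟨n, hn, h1⟩ := ht a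
    exact ⟨n, hn, by rw [← map_pow, h1, map_one]⟩

theorem CT.finite (h : CT a b) (hgen : Subgroup.closure {a, b} = ⊤) : Finite G := by
  refine finite_of_M h.e5 {a} (Set.finite_singleton a) b hgen ?_
  rw [← NN_eq]
  intro hn
  exact locFin_of_class3 (fun g => ⟨5, by norm_num, h.e5 g⟩) _ h.class3

theorem CT.mod (hexp : ∀ g : G, g ^ 5 = 1) (R : Subgroup G) [R.Normal]
    (h1 : ⁅⁅a, b⁻¹ * a * b⁆, a⁆ ∈ R) (h2 : ⁅⁅a, b⁻¹ * a * b⁆, b⁻¹ * a * b⁆ ∈ R) :
    CT ((QuotientGroup.mk' R) a) ((QuotientGroup.mk' R) b) := by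
  have e1 : (QuotientGroup.mk' R) ⁅⁅a, b⁻¹ * a * b⁆, a⁆ = 1 := (QuotientGroup.eq_one_iff _).mpr h1
  have e2 : (QuotientGroup.mk' R) ⁅⁅a, b⁻¹ * a * b⁆, b⁻¹ * a * b⁆ = 1 :=
    (QuotientGroup.eq_one_iff _).mpr h2
  simp only [map_commutatorElement, map_mul, map_inv] at e1 e2
  refine ⟨?_, commutatorElement_eq_one_iff_commute.mp e1, commutatorElement_eq_one_iff_commute.mp e2⟩
  intro g
  obtain ⟨g, rfl⟩ := QuotientGroup.mk'_surjective R g
  rw [← map_pow, hexp, map_one]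

theorem finite_mod (hexp : ∀ g : G, g ^ 5 = 1) (R : Subgroup G) [R.Normal] (hR : LocFin R)
    (hgen : Subgroup.closure {a, b} = ⊤)
    (h1 : ⁅⁅a, b⁻¹ * a * b⁆, a⁆ ∈ R) (h2 : ⁅⁅a, b⁻¹ * a * b⁆, b⁻¹ * a * b⁆ ∈ R) :
    Finite G := by
  have hQ : Finite (G ⧸ R) := by
    refine (CT.mod hexp R h1 h2).finite ?_
    have e : ({(QuotientGroup.mk' R) a, (QuotientGroup.mk' R) b} : Set (G ⧸ R)) =
        (QuotientGroup.mk' R) '' {a, b} := by
      rw [Set.image_pair]
    rw [e, ← MonoidHom.map_closure, hgen,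
      Subgroup.map_top_of_surjective _ (QuotientGroup.mk'_surjective R)]
  have htop : LocFin (⊤ : Subgroup G) := by
    refine locFin_ext hR ?_
    intro T _ _
    exact inferInstance
  have h3 := htop {a, b} (by simp) (fun _ _ => trivial)
  rw [hgen] at h3
  exact Finite.of_equiv _ (Subgroup.topEquiv (G := G)).toEquiv

theorem finite_sub (hexp : ∀ g : G, g ^ 5 = 1) (R : Subgroup G) [R.Normal] (hR : LocFin R)
    (h1 : ⁅⁅a, b⁻¹ * a * b⁆, a⁆ ∈ R) (h2 : ⁅⁅a, b⁻¹ * a * b⁆, b⁻¹ * a * b⁆ ∈ R) :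
    Finite ↥(Subgroup.closure {a, b}) := by
  obtain ⟨H, hH⟩ : ∃ H : Subgroup G, H = Subgroup.closure {a, b} := ⟨_, rfl⟩
  have ha : a ∈ H := by rw [hH]; exact Subgroup.subset_closure (by simp)
  have hb : b ∈ H := by rw [hH]; exact Subgroup.subset_closure (by simp)
  rw [← hH]
  have hRH : LocFin (R.subgroupOf H) := by
    intro S hS hSR
    have h1 := hR (H.subtype '' S) (hS.image _) (by
      rintro _ ⟨s, hs, rfl⟩
      exact Subgroup.mem_subgroupOf.mp (hSR hs))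
    rw [← MonoidHom.map_closure] at h1
    exact Finite.of_equiv _
      ((Subgroup.closure S).equivMapOfInjective H.subtype H.subtype_injective).symm.toEquiv
  refine finite_mod (G := H) (a := ⟨a, ha⟩) (b := ⟨b, hb⟩)
    (fun g => Subtype.ext (by simpa using hexp g)) (R.subgroupOf H) hRH ?_ ?_ ?_
  · have himg : H.subtype '' ({⟨a, ha⟩, ⟨b, hb⟩} : Set H) = {a, b} := by
      rw [Set.image_pair]
      rfl
    apply Subgroup.map_injective H.subtype_injective
    rw [MonoidHom.map_closure, himg, ← MonoidHom.range_eq_map, Subgroup.range_subtype, hH]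
  · rw [Subgroup.mem_subgroupOf]
    exact h1
  · rw [Subgroup.mem_subgroupOf]
    exact h2

end final

/-! ## The result -/

/-- Let `G` be a group of exponent 5, `R` a normal subgroup and `a, b ∈ G` such that `R` contains the
commutators of `[a, b⁻¹ a b]` with `a` and with `b⁻¹ a b`. Then the normal closure `N` of `a` in
`⟨a, b⟩` satisfies `[[[N, N], N], N] ≤ R`, and if `R` is locally finite (for example trivial), then
`⟨a, b⟩` is finite. -/
theorem main_thm (G : Type) [Group G] (hexp : ∀ g : G, g ^ 5 = 1) (R : Subgroup G) (hRn : R.Normal)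
    (a b : G) (h1 : ⁅⁅a, b⁻¹ * a * b⁆, a⁆ ∈ R) (h2 : ⁅⁅a, b⁻¹ * a * b⁆, b⁻¹ * a * b⁆ ∈ R) :
    (∀ x ∈ ncl a b, ∀ y ∈ ncl a b, ∀ z ∈ ncl a b, ∀ t ∈ ncl a b, ⁅⁅⁅x, y⁆, z⁆, t⁆ ∈ R) ∧
    (LocFin R → Finite ↥(Subgroup.closure {a, b})) := by
  refine ⟨?_, fun hR => finite_sub hexp R hR h1 h2⟩
  have hH := CT.mod hexp R h1 h2
  have hmap : ∀ x ∈ ncl a b, (QuotientGroup.mk' R) x ∈
      NN ((QuotientGroup.mk' R) a) ((QuotientGroup.mk' R) b) := by
    intro x hx
    apply ncl_le hH.hb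
    have e1 : (QuotientGroup.mk' R) x ∈ (ncl a b).map (QuotientGroup.mk' R) :=
      Subgroup.mem_map_of_mem _ hx
    rw [ncl, MonoidHom.map_closure] at e1
    refine (Subgroup.closure_mono ?_) e1
    rintro _ ⟨_, ⟨g, hg, rfl⟩, rfl⟩
    refine ⟨(QuotientGroup.mk' R) g, ?_, by rw [map_mul, map_mul, map_inv]⟩
    have e2 : (QuotientGroup.mk' R) g ∈ (Subgroup.closure {a, b}).map (QuotientGroup.mk' R) :=
      Subgroup.mem_map_of_mem _ hg
    rwa [MonoidHom.map_closure, Set.image_pair] at e2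
  intro x hx y hy z hz t ht
  refine (QuotientGroup.eq_one_iff _).mp ?_
  change (QuotientGroup.mk' R) ⁅⁅⁅x, y⁆, z⁆, t⁆ = 1
  rw [map_commutatorElement, map_commutatorElement, map_commutatorElement]
  exact commutatorElement_eq_one_iff_commute.mpr
    (hH.class3 _ (hmap x hx) _ (hmap y hy) _ (hmap z hz) _ (hmap t ht))


end Pool.Agent.B5C2
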