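import Mathlib

set_option autoImplicit false

namespace Pool.Agent.B5CC

/-! ## Definitions used in the statement -/

/-- The normal closure of `A` in the subgroup generated by `A` and `b`. -/
def ncl {G : Type} [Group G] (A : Subgroup G) (b : G) : Subgroup G :=
  Subgroup.closure {y | ∃ g ∈ A ⊔ Subgroup.zpowers b, ∃ a ∈ A, y = g⁻¹ * a * g}

/-- A subgroup is locally finite if each finite subset generates a finite subgroup. -/
def LocFin {G : Type} [Group G] (N : Subgroup G) : Prop :=
  ∀ S : Set G, S.Finite → S ⊆ N → Finite (Subgroup.closure S)

end Pool.Agent.B5CC
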