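import Pool.Agent.Work.MP_20a6e6_al.CCDefs

/-!
# Groups of exponent 5 in which a subgroup commutes with one of its conjugates

Let `A` be a subgroup and `b` an element of a group with `b ^ 5 = 1` and `(a * b) ^ 5 = 1` for all
`a ∈ A`. If each element of `A` commutes with each element of `b⁻¹ A b`, then the normal closure of `A`
in `⟨A, b⟩` is nilpotent of class at most 2, and abelian if `A` is abelian. Consequence: finiteness of
`⟨A, b⟩` for a finitely generated subgroup `A` of a group of exponent 5, also modulo a locally finite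
normal subgroup.
-/

set_option autoImplicit false

namespace Pool.Agent.B5CC

open scoped commutatorElement

/-! ## Conjugates -/

section conj
variable {G : Type} [Group G]

/-- Conjugation by `b ^ k`. -/
def f (b : G) (k : ℕ) : G →* G := (MulAut.conj (b ^ k)).toMonoidHom

theorem f_apply (b : G) (k : ℕ) (x : G) : f b k x = b ^ k * x * (b ^ k)⁻¹ :=
  MulAut.conj_apply _ _

theorem f_zero (b x : G) : f b 0 x = x := by simp [f_apply]

theorem f_f (b : G) (k l : ℕ) (x : G) : f b k (f b l x) = f b (k + l) x := by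
  simp only [f_apply, pow_add]
  group

theorem f_five {b : G} (hb : b ^ 5 = 1) (k : ℕ) (x : G) : f b (k + 5) x = f b k x := by
  rw [f_apply, f_apply, pow_add, hb, mul_one]

theorem f_mod {b : G} (hb : b ^ 5 = 1) (k : ℕ) (x : G) : f b k x = f b (k % 5) x := by
  rw [f_apply, f_apply, ← pow_eq_pow_mod k hb]

/-- The hypotheses on `A` and `b`. -/
structure Hyp (A : Subgroup G) (b : G) : Prop where
  hb : b ^ 5 = 1
  hab : ∀ a ∈ A, (a * b) ^ 5 = 1
  hc : ∀ x ∈ A, ∀ y ∈ A, Commute x (b⁻¹ * y * b)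

variable {A : Subgroup G} {b : G}

theorem Hyp.c4 (h : Hyp A b) {x y : G} (hx : x ∈ A) (hy : y ∈ A) : Commute x (f b 4 y) := by
  have h1 : f b 4 y = b⁻¹ * y * b := by
    have h2 : b ^ 4 = b⁻¹ := by
      apply eq_inv_of_mul_eq_one_left
      rw [← pow_succ, h.hb]
    rw [f_apply, h2, inv_inv]
  rw [h1]
  exact h.hc x hx y hy

theorem Hyp.c1 (h : Hyp A b) {x y : G} (hx : x ∈ A) (hy : y ∈ A) : Commute x (f b 1 y) := by
  have h1 := (h.c4 hy hx).map (f b 1)
  rw [f_f, f_five h.hb 0, f_zero] at h1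
  exact h1.symm

theorem Hyp.c23 (h : Hyp A b) {x y : G} (hx : x ∈ A) (hy : y ∈ A) :
    Commute (f b 2 x) (f b 3 y) := by
  have h1 := (h.c1 hx hy).map (f b 2)
  rw [f_f] at h1
  exact h1

theorem Hyp.prod (h : Hyp A b) {a : G} (ha : a ∈ A) :
    a * f b 1 a * f b 2 a * f b 3 a * f b 4 a = 1 := by
  have h1 : a * f b 1 a * f b 2 a * f b 3 a * f b 4 a * b ^ 5 = (a * b) ^ 5 := by
    have h0 : (a * b) ^ 5 = a * b * (a * b) * (a * b) * (a * b) * (a * b) := by
      simp only [pow_succ, pow_zero, one_mul]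
    rw [h0]
    simp only [f_apply]
    group
  rw [h.hab a ha, h.hb, mul_one] at h1
  exact h1

/-- `a_4 a_0 a_1` is the inverse of `a_2 a_3`. -/
theorem Hyp.al (h : Hyp A b) {a : G} (ha : a ∈ A) :
    f b 4 a * a * f b 1 a = (f b 2 a * f b 3 a)⁻¹ := by
  have h1 := h.prod ha
  have h2 : (a * f b 1 a) * (f b 2 a * f b 3 a * f b 4 a) = 1 := by
    rw [← h1]; group
  have h3 := eq_inv_of_mul_eq_one_left h2
  rw [mul_assoc (f b 4 a), h3]
  group

/-- `a ↦ a_4 a_0 a_1` reverses products. -/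
theorem Hyp.anti (h : Hyp A b) {x y : G} (hx : x ∈ A) (hy : y ∈ A) :
    f b 4 (x * y) * (x * y) * f b 1 (x * y) =
      (f b 4 y * y * f b 1 y) * (f b 4 x * x * f b 1 x) := by
  rw [h.al (A.mul_mem hx hy), h.al hx, h.al hy, ← mul_inv_rev, map_mul, map_mul]
  congr 1
  have h1 := (h.c23 hy hx).eq
  calc f b 2 x * f b 2 y * (f b 3 x * f b 3 y)
      = f b 2 x * (f b 2 y * f b 3 x) * f b 3 y := by group
    _ = f b 2 x * (f b 3 x * f b 2 y) * f b 3 y := by rw [h1]
    _ = f b 2 x * f b 3 x * (f b 2 y * f b 3 y) := by group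

/-- The main identity. -/
theorem Hyp.main (h : Hyp A b) {x y : G} (hx : x ∈ A) (hy : y ∈ A) :
    x * y * (f b 4 x * f b 4 y * f b 1 x * f b 1 y) =
      y * x * (f b 4 y * f b 1 y * f b 4 x * f b 1 x) := by
  have h0 := h.anti hx hy
  rw [map_mul, map_mul] at h0
  have xy := A.mul_mem hx hy
  have a1 : f b 4 x * f b 4 y * (x * y) * (f b 1 x * f b 1 y) =
      x * y * (f b 4 x * f b 4 y * f b 1 x * f b 1 y) := by
    have e : Commute (x * y) (f b 4 x * f b 4 y) :=
      (h.c4 xy hx).mul_right (h.c4 xy hy)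
    calc f b 4 x * f b 4 y * (x * y) * (f b 1 x * f b 1 y)
        = (x * y * (f b 4 x * f b 4 y)) * (f b 1 x * f b 1 y) := by rw [e.eq]
      _ = _ := by group
  have a2 : (f b 4 y * y * f b 1 y) * (f b 4 x * x * f b 1 x) =
      y * x * (f b 4 y * f b 1 y * f b 4 x * f b 1 x) := by
    have e1 : f b 4 y * y = y * f b 4 y := (h.c4 hy hy).eq.symm
    have e2 : (f b 1 y * f b 4 x) * x = x * (f b 1 y * f b 4 x) :=
      ((h.c1 hx hy).mul_right (h.c4 hx hx)).eq.symm
    have e3 : f b 4 y * x = x * f b 4 y := (h.c4 hx hy).eq.symm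
    calc (f b 4 y * y * f b 1 y) * (f b 4 x * x * f b 1 x)
        = (f b 4 y * y) * ((f b 1 y * f b 4 x) * x) * f b 1 x := by group
      _ = (y * f b 4 y) * (x * (f b 1 y * f b 4 x)) * f b 1 x := by rw [e1, e2]
      _ = y * (f b 4 y * x) * (f b 1 y * f b 4 x) * f b 1 x := by group
      _ = y * (x * f b 4 y) * (f b 1 y * f b 4 x) * f b 1 x := by rw [e3]
      _ = _ := by group
  rw [← a1, ← a2]
  exact h0

/-- Commutators of elements of `A` are central in `A`. -/
theorem Hyp.cls (h : Hyp A b) {x y z : G} (hx : x ∈ A) (hy : y ∈ A) (hz : z ∈ A) :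
    Commute ((y * x)⁻¹ * (x * y)) z := by
  have h1 := h.main hx hy
  have h2 : (y * x)⁻¹ * (x * y) = (f b 4 y * f b 1 y * f b 4 x * f b 1 x) *
      (f b 4 x * f b 4 y * f b 1 x * f b 1 y)⁻¹ := by
    rw [eq_mul_inv_iff_mul_eq, mul_assoc, h1]
    group
  rw [h2]
  have p4 : ∀ w ∈ A, Commute (f b 4 w) z := fun w hw => (h.c4 hz hw).symm
  have p1 : ∀ w ∈ A, Commute (f b 1 w) z := fun w hw => (h.c1 hz hw).symm
  refine Commute.mul_left ?_ (Commute.inv_left ?_)
  · exact (((p4 y hy).mul_left (p1 y hy)).mul_left (p4 x hx)).mul_left (p1 x hx)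
  · exact (((p4 x hx).mul_left (p4 y hy)).mul_left (p1 x hx)).mul_left (p1 y hy)

/-- The abelian case, first step. -/
theorem Hyp.key (h : Hyp A b) {x y : G} (hx : x ∈ A) (hy : y ∈ A) (hxy : Commute x y) :
    Commute (f b 4 x) (f b 1 y) := by
  have h1 := h.main hx hy
  rw [hxy.eq, mul_right_inj] at h1
  have e4 : f b 4 x * f b 4 y = f b 4 y * f b 4 x := (hxy.map (f b 4)).eq
  have e1 : f b 1 x * f b 1 y = f b 1 y * f b 1 x := (hxy.map (f b 1)).eq
  have h2 : f b 4 y * (f b 4 x * f b 1 y) * f b 1 x = f b 4 y * (f b 1 y * f b 4 x) * f b 1 x := by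
    calc f b 4 y * (f b 4 x * f b 1 y) * f b 1 x
        = (f b 4 y * f b 4 x) * (f b 1 y * f b 1 x) := by group
      _ = (f b 4 x * f b 4 y) * (f b 1 x * f b 1 y) := by rw [e4, e1]
      _ = f b 4 x * f b 4 y * f b 1 x * f b 1 y := by group
      _ = _ := by rw [h1]; group
  rw [mul_left_inj, mul_right_inj] at h2
  exact h2

/-- Commuting elements of `A` have commuting conjugates, difference form. -/
theorem Hyp.all0 (h : Hyp A b) {x y : G} (hx : x ∈ A) (hy : y ∈ A) (hxy : Commute x y) (d : ℕ) :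
    Commute x (f b d y) := by
  rw [f_mod h.hb]
  have hd : d % 5 < 5 := Nat.mod_lt _ (by norm_num)
  generalize d % 5 = e at hd
  interval_cases e
  · rwa [f_zero]
  · exact h.c1 hx hy
  · have h1 := (h.key hx hy hxy).map (f b 1)
    rw [f_f, f_f, f_five h.hb 0, f_zero] at h1
    exact h1
  · have h1 := (h.key hy hx hxy.symm).map (f b 4)
    rw [f_f, f_f, f_five h.hb 3, f_five h.hb 0, f_zero] at h1
    exact h1.symm
  · exact h.c4 hx hy

theorem shift (b : G) (hb : b ^ 5 = 1) (k l : ℕ) (y : G) :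
    f b l y = f b k (f b (4 * k + l) y) := by
  rw [f_f, f_mod hb (k + (4 * k + l)), f_mod hb l]
  congr 2
  omega

theorem Hyp.all (h : Hyp A b) {x y : G} (hx : x ∈ A) (hy : y ∈ A) (hxy : Commute x y) (k l : ℕ) :
    Commute (f b k x) (f b l y) := by
  rw [shift b h.hb k l y]
  exact (h.all0 hx hy hxy _).map (f b k)

/-- `z` commutes with all conjugates `b^l x b^(-l)`, `x ∈ A`. -/
def Cen (A : Subgroup G) (b z : G) : Prop := ∀ x ∈ A, ∀ l : ℕ, Commute z (f b l x)

theorem Cen.mul {z w : G} (hz : Cen A b z) (hw : Cen A b w) : Cen A b (z * w) :=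
  fun x hx l => (hz x hx l).mul_left (hw x hx l)

theorem Cen.inv {z : G} (hz : Cen A b z) : Cen A b z⁻¹ := fun x hx l => (hz x hx l).inv_left

theorem Cen.f {z : G} (hb : b ^ 5 = 1) (hz : Cen A b z) (k : ℕ) : Cen A b (f b k z) := by
  intro x hx l
  rw [shift b hb k l x]
  exact (hz x hx _).map _

theorem Hyp.cen (h : Hyp A b) {x y : G} (hx : x ∈ A) (hy : y ∈ A) :
    Cen A b ((y * x)⁻¹ * (x * y)) := by
  intro z hz l
  refine h.all0 (A.mul_mem (A.inv_mem (A.mul_mem hy hx)) (A.mul_mem hx hy)) hz ?_ l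
  exact h.cls hx hy hz

/-- The commutator of `a_4` and `a'_1` is central. -/
theorem Hyp.com41 (h : Hyp A b) {x y : G} (hx : x ∈ A) (hy : y ∈ A) :
    Cen A b ⁅f b 4 x, f b 1 y⁆ := by
  obtain ⟨c, hcd⟩ : ∃ c, c = (y * x)⁻¹ * (x * y) := ⟨_, rfl⟩
  have hcen : Cen A b c := by rw [hcd]; exact h.cen hx hy
  have hxy : x * y = y * x * c := by rw [hcd]; group
  have h1 := h.main hx hy
  have hc4 := hcen.f h.hb 4
  have hc1 := hcen.f h.hb 1
  have e4 : f b 4 x * f b 4 y = f b 4 y * f b 4 x * f b 4 c := by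
    rw [← map_mul, hxy, map_mul, map_mul]
  have e1 : f b 1 x * f b 1 y = f b 1 y * f b 1 x * f b 1 c := by
    rw [← map_mul, hxy, map_mul, map_mul]
  have hz : Cen A b (c * f b 4 c * f b 1 c) := (hcen.mul hc4).mul hc1
  -- `a_4 a'_1 ζ = a'_1 a_4`
  have h2 : f b 4 x * f b 1 y * (c * f b 4 c * f b 1 c) = f b 1 y * f b 4 x := by
    have a1 : x * y * (f b 4 x * f b 4 y * f b 1 x * f b 1 y) =
        y * x * (f b 4 y * (f b 4 x * f b 1 y * (c * f b 4 c * f b 1 c)) * f b 1 x) := by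
      have b1 : f b 4 x * f b 4 y * f b 1 x * f b 1 y =
          (f b 4 y * f b 4 x * f b 4 c) * (f b 1 y * f b 1 x * f b 1 c) := by
        rw [← e4, ← e1]; group
      rw [b1, hxy]
      have q1 : f b 4 c * f b 1 y = f b 1 y * f b 4 c := (hc4 y hy 1).eq
      have q2 : (c * f b 4 c) * f b 1 x = f b 1 x * (c * f b 4 c) := ((hcen.mul hc4) x hx 1).eq
      have q3 : c * (f b 4 y * f b 4 x * f b 1 y) = f b 4 y * f b 4 x * f b 1 y * c :=
        (((hcen y hy 4).mul_right (hcen x hx 4)).mul_right (hcen y hy 1)).eq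
      have q4 : f b 1 c * f b 1 x = f b 1 x * f b 1 c := (hc1 x hx 1).eq
      calc y * x * c * (f b 4 y * f b 4 x * f b 4 c * (f b 1 y * f b 1 x * f b 1 c))
          = y * x * (c * (f b 4 y * f b 4 x * (f b 4 c * f b 1 y))) * f b 1 x * f b 1 c := by
            group
        _ = y * x * (c * (f b 4 y * f b 4 x * f b 1 y)) * f b 4 c * f b 1 x * f b 1 c := by
            rw [q1]; group
        _ = y * x * (f b 4 y * f b 4 x * f b 1 y) * ((c * f b 4 c) * f b 1 x) * f b 1 c := by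
            rw [q3]; group
        _ = y * x * (f b 4 y * f b 4 x * f b 1 y) * (f b 1 x * (c * f b 4 c)) * f b 1 c := by
            rw [q2]
        _ = y * x * (f b 4 y * f b 4 x * f b 1 y) * (f b 1 x * (c * f b 4 c * f b 1 c)) := by
            group
        _ = y * x * (f b 4 y * f b 4 x * f b 1 y) * ((c * f b 4 c * f b 1 c) * f b 1 x) := by
            rw [(hz x hx 1).eq]
        _ = _ := by group
    rw [a1, mul_right_inj] at h1
    have a2 : f b 4 y * (f b 1 y * f b 4 x) * f b 1 x =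
        f b 4 y * f b 1 y * f b 4 x * f b 1 x := by group
    rw [← a2, mul_left_inj, mul_right_inj] at h1
    exact h1
  have h3 : ⁅f b 4 x, f b 1 y⁆ = (c * f b 4 c * f b 1 c)⁻¹ := by
    rw [commutatorElement_def]
    have q : (c * f b 4 c * f b 1 c) * (f b 4 x * f b 1 y) =
        (f b 4 x * f b 1 y) * (c * f b 4 c * f b 1 c) :=
      ((hz x hx 4).mul_right (hz y hy 1)).eq
    rw [eq_inv_iff_mul_eq_one]
    calc f b 4 x * f b 1 y * (f b 4 x)⁻¹ * (f b 1 y)⁻¹ * (c * f b 4 c * f b 1 c)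
        = f b 4 x * f b 1 y * (f b 1 y * f b 4 x)⁻¹ * (c * f b 4 c * f b 1 c) := by group
      _ = f b 4 x * f b 1 y * (f b 4 x * f b 1 y * (c * f b 4 c * f b 1 c))⁻¹ *
            (c * f b 4 c * f b 1 c) := by rw [h2]
      _ = f b 4 x * f b 1 y * ((c * f b 4 c * f b 1 c) * (f b 4 x * f b 1 y))⁻¹ *
            (c * f b 4 c * f b 1 c) := by rw [q]
      _ = 1 := by group
  rw [h3]
  exact hz.inv

theorem map_comm (g : G →* G) (x y : G) : ⁅g x, g y⁆ = g ⁅x, y⁆ := by
  simp [commutatorElement_def]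

/-- Commutators of conjugates are central, difference form. -/
theorem Hyp.com0 (h : Hyp A b) {x y : G} (hx : x ∈ A) (hy : y ∈ A) (d : ℕ) :
    Cen A b ⁅x, f b d y⁆ := by
  have hone : Cen A b 1 := fun _ _ _ => Commute.one_left _
  rw [f_mod h.hb]
  have hd : d % 5 < 5 := Nat.mod_lt _ (by norm_num)
  generalize d % 5 = e at hd
  -- the case `d = 2`
  have two : ∀ u ∈ A, ∀ w ∈ A, Cen A b ⁅u, f b 2 w⁆ := by
    intro u hu w hw
    have h1 := (h.com41 hu hw).f h.hb 1
    rw [← map_comm, f_f, f_f, f_five h.hb 0, f_zero] at h1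
    exact h1
  interval_cases e
  · rw [f_zero]
    have h1 := h.cen (A.inv_mem hx) (A.inv_mem hy)
    have h2 : (y⁻¹ * x⁻¹)⁻¹ * (x⁻¹ * y⁻¹) = ⁅x, y⁆ := by
      rw [commutatorElement_def]; group
    rw [h2] at h1
    exact h1
  · rw [(h.c1 hx hy).commutator_eq]; exact hone
  · exact two x hx y hy
  · have h1 := (two y hy x hx).f h.hb 3
    rw [← map_comm, f_f, f_five h.hb 0, f_zero] at h1
    have h2 := h1.inv
    rw [commutatorElement_inv] at h2
    exact h2
  · rw [(h.c4 hx hy).commutator_eq]; exact hone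

theorem Hyp.com (h : Hyp A b) {x y : G} (hx : x ∈ A) (hy : y ∈ A) (k l : ℕ) :
    Cen A b ⁅f b k x, f b l y⁆ := by
  rw [shift b h.hb k l y, map_comm]
  exact (h.com0 hx hy _).f h.hb k

/-! ## The subgroup generated by the conjugates -/

/-- The subgroup generated by all `b^k a b^(-k)`. -/
def M (A : Subgroup G) (b : G) : Subgroup G :=
  Subgroup.closure {y | ∃ k : ℕ, ∃ a ∈ A, y = f b k a}

theorem f_mem_M {a : G} (ha : a ∈ A) (k : ℕ) : f b k a ∈ M A b :=
  Subgroup.subset_closure ⟨k, a, ha, rfl⟩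

theorem Cen.M {z : G} (hz : Cen A b z) : ∀ w ∈ M A b, Commute z w := by
  intro w hw
  have hle : B5CC.M A b ≤ Subgroup.centralizer {z} := by
    rw [B5CC.M, Subgroup.closure_le]
    rintro _ ⟨k, a, ha, rfl⟩
    rw [SetLike.mem_coe, Subgroup.mem_centralizer_singleton_iff]
    exact (hz a ha k).eq.symm
  have h1 := hle hw
  rw [Subgroup.mem_centralizer_singleton_iff] at h1
  exact Commute.symm h1

/-- If the commutators of generators are central then all commutators are central. -/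
theorem closure_class {S : Set G}
    (hS : ∀ x ∈ S, ∀ y ∈ S, ∀ z ∈ Subgroup.closure S, Commute ⁅x, y⁆ z) :
    ∀ x ∈ Subgroup.closure S, ∀ y ∈ Subgroup.closure S, ∀ z ∈ Subgroup.closure S,
      Commute ⁅x, y⁆ z := by
  -- products in the first place
  have step : ∀ y : G, (∀ x ∈ S, ∀ z ∈ Subgroup.closure S, Commute ⁅x, y⁆ z) →
      ∀ x ∈ Subgroup.closure S, ∀ z ∈ Subgroup.closure S, Commute ⁅x, y⁆ z := by
    intro y hy x hx
    refine Subgroup.closure_induction (p := fun x _ => ∀ z ∈ Subgroup.closure S, Commute ⁅x, y⁆ z)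
      ?_ ?_ ?_ ?_ hx
    · intro x hx; exact hy x hx
    · intro z _
      rw [commutatorElement_one_left]
      exact Commute.one_left z
    · intro u v hu hv h1 h2 z hz
      have e : ⁅u * v, y⁆ = ⁅v, y⁆ * ⁅u, y⁆ := by
        have e1 : ⁅u * v, y⁆ = u * ⁅v, y⁆ * u⁻¹ * ⁅u, y⁆ := by
          simp only [commutatorElement_def]; group
        rw [e1, ← (h2 u hu).eq]; group
      rw [e]
      exact (h2 z hz).mul_left (h1 z hz)
    · intro u hu h1 z hz
      have e : ⁅u⁻¹, y⁆ = ⁅u, y⁆⁻¹ := by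
        have e1 : ⁅u⁻¹, y⁆ = u⁻¹ * ⁅u, y⁆⁻¹ * u := by
          simp only [commutatorElement_def]; group
        rw [e1, mul_assoc, ((h1 u hu).inv_left).eq]; group
      rw [e]
      exact (h1 z hz).inv_left
  have sw : ∀ x y z : G, Commute ⁅x, y⁆ z → Commute ⁅y, x⁆ z := by
    intro x y z h
    rw [← commutatorElement_inv]
    exact h.inv_left
  intro x hx y hy
  refine step y ?_ x hx
  intro u hu z hz
  refine sw _ _ _ (step u ?_ y hy z hz)
  intro v hv z hz
  exact hS v hv u hu z hz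

theorem closure_comm {S : Set G} (hS : ∀ x ∈ S, ∀ y ∈ S, x * y = y * x) :
    ∀ x ∈ Subgroup.closure S, ∀ y ∈ Subgroup.closure S, x * y = y * x := by
  intro x hx y hy
  have h1 : Subgroup.closure S ≤ Subgroup.centralizer S := by
    rw [Subgroup.closure_le]
    intro z hz
    rw [SetLike.mem_coe, Subgroup.mem_centralizer_iff]
    intro y hy
    exact hS y hy z hz
  have h2 := Subgroup.closure_le_centralizer_centralizer S hx
  rw [Subgroup.mem_centralizer_iff] at h2
  exact (h2 y (h1 hy)).symm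

theorem Hyp.M_class (h : Hyp A b) : ∀ x ∈ M A b, ∀ y ∈ M A b, ∀ z ∈ M A b,
    Commute ⁅x, y⁆ z := by
  refine closure_class ?_
  rintro _ ⟨k, x, hx, rfl⟩ _ ⟨l, y, hy, rfl⟩ z hz
  exact (h.com hx hy k l).M z hz

theorem Hyp.M_comm (h : Hyp A b) (hA : ∀ x ∈ A, ∀ y ∈ A, x * y = y * x) :
    ∀ x ∈ M A b, ∀ y ∈ M A b, x * y = y * x := by
  refine closure_comm ?_
  rintro _ ⟨k, x, hx, rfl⟩ _ ⟨l, y, hy, rfl⟩
  exact (h.all hx hy (hA x hx y hy) k l).eq

/-! ## The normal closure -/

theorem conj_b (hb : b ^ 5 = 1) {y : G} (hy : y ∈ M A b) : b⁻¹ * y * b ∈ M A b := by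
  refine Subgroup.closure_induction (p := fun y _ => b⁻¹ * y * b ∈ M A b) ?_ ?_ ?_ ?_ hy
  · rintro _ ⟨k, a, ha, rfl⟩
    have h1 : b⁻¹ * f b k a * b = f b (k + 4) a := by
      have h2 : b ^ 4 = b⁻¹ := by
        apply eq_inv_of_mul_eq_one_left
        rw [← pow_succ, hb]
      rw [f_apply, f_apply, add_comm, pow_add, h2]
      group
    rw [h1]
    exact f_mem_M ha _
  · simp [(M A b).one_mem]
  · intro u v _ _ h1 h2
    have e : b⁻¹ * (u * v) * b = (b⁻¹ * u * b) * (b⁻¹ * v * b) := by group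
    rw [e]
    exact (M A b).mul_mem h1 h2
  · intro u _ h1
    have e : b⁻¹ * u⁻¹ * b = (b⁻¹ * u * b)⁻¹ := by group
    rw [e]
    exact (M A b).inv_mem h1

theorem conj_pow (hb : b ^ 5 = 1) (n : ℕ) {y : G} (hy : y ∈ M A b) :
    (b ^ n)⁻¹ * y * b ^ n ∈ M A b := by
  induction n with
  | zero => simpa using hy
  | succ n ih =>
    have h1 := conj_b (A := A) hb ih
    have e : (b ^ (n + 1))⁻¹ * y * b ^ (n + 1) = b⁻¹ * ((b ^ n)⁻¹ * y * b ^ n) * b := by
      rw [pow_succ]; group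
    rw [e]
    exact h1

/-- `⟨A, b⟩` normalizes `M`. -/
theorem conj_mem (hb : b ^ 5 = 1) {g : G} (hg : g ∈ A ⊔ Subgroup.zpowers b) :
    ∀ y ∈ M A b, g⁻¹ * y * g ∈ M A b := by
  have hle : A ⊔ Subgroup.zpowers b ≤ Subgroup.closure ((A : Set G) ∪ {b}) := by
    rw [Subgroup.closure_union, Subgroup.closure_eq, Subgroup.zpowers_eq_closure]
  have h0 := hle hg
  refine Subgroup.closure_induction'' (p := fun g _ => ∀ y ∈ M A b, g⁻¹ * y * g ∈ M A b)
    ?_ ?_ ?_ ?_ h0
  · rintro x (hx | hx) y hy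
    · have hx' : x ∈ M A b := by
        have := f_mem_M (b := b) hx 0
        rwa [f_zero] at this
      exact (M A b).mul_mem ((M A b).mul_mem ((M A b).inv_mem hx') hy) hx'
    · rw [Set.mem_singleton_iff] at hx
      subst hx
      exact conj_b hb hy
  · rintro x (hx | hx) y hy
    · have hx' : x ∈ M A b := by
        have := f_mem_M (b := b) hx 0
        rwa [f_zero] at this
      rw [inv_inv]
      exact (M A b).mul_mem ((M A b).mul_mem hx' hy) ((M A b).inv_mem hx')
    · rw [Set.mem_singleton_iff] at hx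
      subst hx
      have h1 := conj_pow (A := A) hb 4 hy
      have h2 : x ^ 4 = x⁻¹ := by
        apply eq_inv_of_mul_eq_one_left
        rw [← pow_succ, hb]
      rwa [h2] at h1
  · intro y hy; simpa using hy
  · intro u v _ _ h1 h2 y hy
    have e : (u * v)⁻¹ * y * (u * v) = v⁻¹ * (u⁻¹ * y * u) * v := by group
    rw [e]
    exact h2 _ (h1 y hy)

theorem ncl_le (hb : b ^ 5 = 1) : ncl A b ≤ M A b := by
  rw [ncl, Subgroup.closure_le]
  rintro _ ⟨g, hg, a, ha, rfl⟩
  have h1 := f_mem_M (b := b) ha 0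
  rw [f_zero] at h1
  exact conj_mem hb hg a h1

end conj

/-! ## Finiteness -/

section fin
variable {G : Type} [Group G]

theorem locFin_ext {N A : Subgroup G} [N.Normal] (hN : LocFin N)
    (hq : ∀ S : Set G, S.Finite → S ⊆ A →
      Finite ((Subgroup.closure S).map (QuotientGroup.mk' N))) : LocFin A := by
  intro S hS hSA
  set F := Subgroup.closure S with hF
  have hfin := hq S hS hSA
  have : Finite S := hS
  have : Group.FG F := Group.closure_finite_fg S
  let φ : F →* G ⧸ N := (QuotientGroup.mk' N).comp F.subtype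
  have hr : φ.range = F.map (QuotientGroup.mk' N) := by
    rw [MonoidHom.range_comp, Subgroup.range_subtype]
  have : Finite φ.range := by rw [hr]; exact hfin
  have : Finite (F ⧸ φ.ker) := Finite.of_equiv _ (QuotientGroup.quotientKerEquivRange φ).symm.toEquiv
  have : φ.ker.FiniteIndex := Subgroup.finiteIndex_of_finite_quotient
  have hfg : Group.FG φ.ker := Subgroup.fg_of_index_ne_zero φ.ker
  obtain ⟨T, hT⟩ := (Group.fg_iff_subgroup_fg φ.ker).mp hfg
  have hTN : ∀ t ∈ T, ((t : F) : G) ∈ N := by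
    intro t ht
    have : t ∈ φ.ker := by rw [← hT]; exact Subgroup.subset_closure ht
    have h1 : (QuotientGroup.mk' N) (t : G) = 1 := this
    exact (QuotientGroup.eq_one_iff (t : G)).mp h1
  have hmap : φ.ker.map F.subtype = Subgroup.closure (F.subtype '' (T : Set F)) := by
    rw [← hT, MonoidHom.map_closure]
  have : Finite (φ.ker.map F.subtype) := by
    rw [hmap]
    refine hN _ (T.finite_toSet.image _) ?_
    rintro _ ⟨t, ht, rfl⟩
    exact hTN t ht
  have : Finite φ.ker :=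
    Finite.of_equiv _ (φ.ker.equivMapOfInjective F.subtype F.subtype_injective).symm.toEquiv
  exact Finite.of_subgroup_quotient φ.ker

theorem finite_of_comm {Q : Type} [Group Q] (H : Subgroup Q) (hfg : H.FG)
    (hc : ∀ a ∈ H, ∀ b ∈ H, a * b = b * a) (ht : ∀ a : Q, ∃ n : ℕ, 0 < n ∧ a ^ n = 1) :
    Finite H := by
  let _ : CommGroup H :=
    { (inferInstance : Group H) with
      mul_comm := fun a b => Subtype.ext (hc a a.2 b b.2) }
  have : Group.FG H := (Group.fg_iff_subgroup_fg H).mpr hfg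
  refine CommGroup.finite_of_fg_isMulTorsion (G := H) ?_
  intro a
  obtain ⟨n, hn, h1⟩ := ht a
  exact isOfFinOrder_iff_pow_eq_one.mpr ⟨n, hn, Subtype.ext (by simpa using h1)⟩

/-- A torsion subgroup whose commutators are central is locally finite. -/
theorem locFin_of_class (ht : ∀ a : G, ∃ n : ℕ, 0 < n ∧ a ^ n = 1) (N : Subgroup G) [N.Normal]
    (hN : ∀ x ∈ N, ∀ y ∈ N, ∀ z ∈ N, Commute ⁅x, y⁆ z) : LocFin N := by
  have hcm : ∀ x ∈ N, ∀ y ∈ N, ⁅x, y⁆ ∈ N := by
    intro x hx y hy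
    rw [commutatorElement_def]
    exact N.mul_mem (N.mul_mem (N.mul_mem hx hy) (N.inv_mem hx)) (N.inv_mem hy)
  have hD : LocFin ⁅N, N⁆ := by
    have hcomm : ∀ x ∈ ⁅N, N⁆, ∀ y ∈ ⁅N, N⁆, x * y = y * x := by
      rw [Subgroup.commutator_def]
      refine closure_comm ?_
      rintro _ ⟨x, hx, y, hy, rfl⟩ _ ⟨z, hz, w, hw, rfl⟩
      exact (hN x hx y hy _ (hcm z hz w hw)).eq
    intro S hS hSD
    refine finite_of_comm _ ⟨hS.toFinset, by simp⟩ ?_ ht
    have hle : Subgroup.closure S ≤ ⁅N, N⁆ := (Subgroup.closure_le _).mpr hSD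
    exact fun a ha b hb => hcomm a (hle ha) b (hle hb)
  refine locFin_ext hD ?_
  intro S hS hSN
  rw [MonoidHom.map_closure]
  refine finite_of_comm _ ⟨(hS.image (QuotientGroup.mk' ⁅N, N⁆)).toFinset, by simp⟩ ?_ ?_
  · refine closure_comm ?_
    rintro _ ⟨x, hx, rfl⟩ _ ⟨y, hy, rfl⟩
    rw [← map_mul, ← map_mul, QuotientGroup.mk'_apply, QuotientGroup.mk'_apply, QuotientGroup.eq]
    have h1 : ⁅y⁻¹, x⁻¹⁆ ∈ ⁅N, N⁆ :=
      Subgroup.commutator_mem_commutator (N.inv_mem (hSN hy)) (N.inv_mem (hSN hx))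
    have h2 : (x * y)⁻¹ * (y * x) = ⁅y⁻¹, x⁻¹⁆ := by
      rw [commutatorElement_def]; group
    rw [h2]
    exact h1
  · intro a
    obtain ⟨a, rfl⟩ := QuotientGroup.mk'_surjective _ a
    obtain ⟨n, hn, h1⟩ := ht a
    exact ⟨n, hn, by rw [← map_pow, h1, map_one]⟩

theorem commute_closure {S : Set G} {b : G} (hc : ∀ x ∈ S, ∀ y ∈ S, Commute x (b⁻¹ * y * b)) :
    ∀ x ∈ Subgroup.closure S, ∀ y ∈ Subgroup.closure S, Commute x (b⁻¹ * y * b) := by
  have h1 : ∀ y ∈ S, ∀ x ∈ Subgroup.closure S, Commute x (b⁻¹ * y * b) := by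
    intro y hy x hx
    have hle : Subgroup.closure S ≤ Subgroup.centralizer {b⁻¹ * y * b} := by
      rw [Subgroup.closure_le]
      intro z hz
      rw [SetLike.mem_coe, Subgroup.mem_centralizer_singleton_iff]
      exact (hc z hz y hy).eq
    have h2 := hle hx
    rwa [Subgroup.mem_centralizer_singleton_iff] at h2
  intro x hx y hy
  refine Subgroup.closure_induction (p := fun y _ => Commute x (b⁻¹ * y * b)) ?_ ?_ ?_ ?_ hy
  · intro y hy; exact h1 y hy x hx
  · simp
  · intro u v _ _ hu hv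
    have e : b⁻¹ * (u * v) * b = (b⁻¹ * u * b) * (b⁻¹ * v * b) := by group
    rw [e]
    exact hu.mul_right hv
  · intro u _ hu
    have e : b⁻¹ * u⁻¹ * b = (b⁻¹ * u * b)⁻¹ := by group
    rw [e]
    exact hu.inv_right

theorem finite_of_commuting (hexp : ∀ g : G, g ^ 5 = 1) (S : Set G) (hS : S.Finite) (b : G)
    (hgen : Subgroup.closure (S ∪ {b}) = ⊤) (hc : ∀ x ∈ S, ∀ y ∈ S, Commute x (b⁻¹ * y * b)) :
    Finite G := by
  have hH : Hyp (Subgroup.closure S) b :=
    ⟨hexp b, fun a _ => hexp (a * b), commute_closure hc⟩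
  have hsup : Subgroup.closure S ⊔ Subgroup.zpowers b = ⊤ := by
    rw [Subgroup.zpowers_eq_closure, ← Subgroup.closure_union, hgen]
  have hnor : (M (Subgroup.closure S) b).Normal := by
    refine ⟨fun n hn g => ?_⟩
    have h1 := conj_mem (A := Subgroup.closure S) hH.hb (g := g⁻¹) (by rw [hsup]; trivial) n hn
    rwa [inv_inv] at h1
  have ht : ∀ a : G, ∃ n : ℕ, 0 < n ∧ a ^ n = 1 := fun a => ⟨5, by norm_num, hexp a⟩
  have hM : LocFin (M (Subgroup.closure S) b) := locFin_of_class ht _ hH.M_class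
  have htop : LocFin (⊤ : Subgroup G) := by
    refine locFin_ext hM ?_
    intro T hT _
    rw [MonoidHom.map_closure]
    refine finite_of_comm _
      ⟨(hT.image (QuotientGroup.mk' (M (Subgroup.closure S) b))).toFinset, by simp⟩ ?_ ?_
    · -- the quotient is generated by the image of `b`
      have hcyc : ∀ g : G ⧸ M (Subgroup.closure S) b,
          g ∈ Subgroup.zpowers ((QuotientGroup.mk' (M (Subgroup.closure S) b)) b) := by
        intro g
        obtain ⟨g, rfl⟩ := QuotientGroup.mk'_surjective _ g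
        have hg : g ∈ Subgroup.closure (S ∪ {b}) := by rw [hgen]; trivial
        have h2 : (QuotientGroup.mk' (M (Subgroup.closure S) b)) g ∈
            (Subgroup.closure (S ∪ {b})).map (QuotientGroup.mk' (M (Subgroup.closure S) b)) :=
          Subgroup.mem_map_of_mem _ hg
        rw [MonoidHom.map_closure] at h2
        refine (Subgroup.closure_le _).mpr ?_ h2
        rintro _ ⟨x, hx | hx, rfl⟩
        · have h3 : x ∈ M (Subgroup.closure S) b := by
            have := f_mem_M (b := b) (Subgroup.subset_closure hx : x ∈ Subgroup.closure S) 0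
            rwa [f_zero] at this
          have h4 : (QuotientGroup.mk' (M (Subgroup.closure S) b)) x = 1 :=
            (QuotientGroup.eq_one_iff x).mpr h3
          rw [SetLike.mem_coe, h4]
          exact Subgroup.one_mem _
        · rw [Set.mem_singleton_iff] at hx
          rw [hx]
          exact Subgroup.mem_zpowers _
      intro x _ y _
      obtain ⟨m, hm⟩ := Subgroup.mem_zpowers_iff.mp (hcyc x)
      obtain ⟨n, hn⟩ := Subgroup.mem_zpowers_iff.mp (hcyc y)
      rw [← hm, ← hn]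
      exact (Commute.refl _).zpow_zpow m n
    · intro a
      obtain ⟨a, rfl⟩ := QuotientGroup.mk'_surjective _ a
      exact ⟨5, by norm_num, by rw [← map_pow, hexp a, map_one]⟩
  have h1 := htop (S ∪ {b}) (hS.union (Set.finite_singleton b)) (fun _ _ => trivial)
  rw [hgen] at h1
  exact Finite.of_equiv _ (Subgroup.topEquiv (G := G)).toEquiv

/-- The same modulo a locally finite normal subgroup. -/
theorem finite_of_commuting_mod (hexp : ∀ g : G, g ^ 5 = 1) (R : Subgroup G) [R.Normal]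
    (hR : LocFin R) (S : Set G) (hS : S.Finite) (b : G)
    (hgen : Subgroup.closure (S ∪ {b}) = ⊤) (hc : ∀ x ∈ S, ∀ y ∈ S, ⁅x, b⁻¹ * y * b⁆ ∈ R) :
    Finite G := by
  have hQ : Finite (G ⧸ R) := by
    refine finite_of_commuting ?_ ((QuotientGroup.mk' R) '' S) (hS.image _)
      ((QuotientGroup.mk' R) b) ?_ ?_
    · intro g
      obtain ⟨g, rfl⟩ := QuotientGroup.mk'_surjective R g
      rw [← map_pow, hexp, map_one]
    · rw [← Set.image_singleton, ← Set.image_union, ← MonoidHom.map_closure, hgen,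
        Subgroup.map_top_of_surjective _ (QuotientGroup.mk'_surjective R)]
    · rintro _ ⟨x, hx, rfl⟩ _ ⟨y, hy, rfl⟩
      have h1 : (QuotientGroup.mk' R) ⁅x, b⁻¹ * y * b⁆ = 1 :=
        (QuotientGroup.eq_one_iff _).mpr (hc x hx y hy)
      rw [map_commutatorElement, map_mul, map_mul, map_inv] at h1
      exact commutatorElement_eq_one_iff_commute.mp h1
  have htop : LocFin (⊤ : Subgroup G) := by
    refine locFin_ext hR ?_
    intro T _ _
    exact inferInstance
  have h1 := htop (S ∪ {b}) (hS.union (Set.finite_singleton b)) (fun _ _ => trivial)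
  rw [hgen] at h1
  exact Finite.of_equiv _ (Subgroup.topEquiv (G := G)).toEquiv

/-- The form for a finitely generated subgroup `A`. -/
theorem finite_sup (hexp : ∀ g : G, g ^ 5 = 1) (R : Subgroup G) [R.Normal] (hR : LocFin R)
    (A : Subgroup G) (hA : A.FG) (b : G) (hc : ∀ x ∈ A, ∀ y ∈ A, ⁅x, b⁻¹ * y * b⁆ ∈ R) :
    Finite ↥(A ⊔ Subgroup.zpowers b) := by
  obtain ⟨T, hT⟩ := hA
  have hbm : b ∈ A ⊔ Subgroup.zpowers b :=
    (le_sup_right : Subgroup.zpowers b ≤ _) (Subgroup.mem_zpowers b)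
  have hTA : ∀ t ∈ (T : Set G), t ∈ A := by
    intro t ht; rw [← hT]; exact Subgroup.subset_closure ht
  have hTm : ∀ t ∈ (T : Set G), t ∈ A ⊔ Subgroup.zpowers b :=
    fun t ht => (le_sup_left : A ≤ _) (hTA t ht)
  obtain ⟨H, hH⟩ : ∃ H : Subgroup G, H = A ⊔ Subgroup.zpowers b := ⟨_, rfl⟩
  rw [← hH] at hbm hTm ⊢
  have hRH : LocFin (R.subgroupOf H) := by
    intro S hS hSR
    have h1 := hR (H.subtype '' S) (hS.image _) (by
      rintro _ ⟨s, hs, rfl⟩
      exact Subgroup.mem_subgroupOf.mp (hSR hs))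
    rw [← MonoidHom.map_closure] at h1
    exact Finite.of_equiv _
      ((Subgroup.closure S).equivMapOfInjective H.subtype H.subtype_injective).symm.toEquiv
  refine finite_of_commuting_mod (G := H) (fun g => Subtype.ext (by simpa using hexp g))
    (R.subgroupOf H) hRH {t : H | (t : G) ∈ (T : Set G)} ?_ ⟨b, hbm⟩ ?_ ?_
  · exact T.finite_toSet.preimage (Subtype.coe_injective.injOn)
  · have himg : H.subtype '' ({t : H | (t : G) ∈ (T : Set G)} ∪ {⟨b, hbm⟩}) = (T : Set G) ∪ {b} := by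
      ext y
      constructor
      · rintro ⟨z, hz | hz, rfl⟩
        · exact Or.inl hz
        · rw [Set.mem_singleton_iff] at hz
          right
          rw [hz]
          rfl
      · rintro (hy | hy)
        · exact ⟨⟨y, hTm y hy⟩, Or.inl hy, rfl⟩
        · rw [Set.mem_singleton_iff] at hy
          subst hy
          exact ⟨⟨y, hbm⟩, Or.inr rfl, rfl⟩
    apply Subgroup.map_injective H.subtype_injective
    rw [MonoidHom.map_closure, himg, ← MonoidHom.range_eq_map, Subgroup.range_subtype,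
      Subgroup.closure_union, hT, ← Subgroup.zpowers_eq_closure, hH]
  · intro x hx y hy
    rw [Subgroup.mem_subgroupOf]
    exact hc _ (hTA _ hx) _ (hTA _ hy)

end fin

/-! ## The result -/

/-- Let `G` be a group of exponent 5, `R` a normal subgroup, `A` a subgroup and `b` an element of `G`,
and suppose that `R` contains the commutators of the elements of `A` with those of `b⁻¹ A b`. Then the
normal closure `N` of `A` in `⟨A, b⟩` satisfies `[[N, N], N] ≤ R`, and `[N, N] ≤ R` if `[A, A] ≤ R`;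
if `R` is locally finite (for example trivial) and `A` is finitely generated, then `⟨A, b⟩` is finite. -/
theorem main_thm (G : Type) [Group G] (hexp : ∀ g : G, g ^ 5 = 1) (R A : Subgroup G) (b : G)
    (hRn : R.Normal) (hc : ∀ x ∈ A, ∀ y ∈ A, ⁅x, b⁻¹ * y * b⁆ ∈ R) :
    (∀ x ∈ ncl A b, ∀ y ∈ ncl A b, ∀ z ∈ ncl A b, ⁅⁅x, y⁆, z⁆ ∈ R) ∧
    ((∀ x ∈ A, ∀ y ∈ A, ⁅x, y⁆ ∈ R) → ∀ x ∈ ncl A b, ∀ y ∈ ncl A b, ⁅x, y⁆ ∈ R) ∧
    (LocFin R → A.FG → Finite ↥(A ⊔ Subgroup.zpowers b)) := by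
  have hH : Hyp (A.map (QuotientGroup.mk' R)) ((QuotientGroup.mk' R) b) := by
    have hq : ∀ g : G ⧸ R, g ^ 5 = 1 := by
      intro g
      obtain ⟨g, rfl⟩ := QuotientGroup.mk'_surjective R g
      rw [← map_pow, hexp, map_one]
    refine ⟨hq _, fun a _ => hq _, ?_⟩
    rintro _ ⟨x, hx, rfl⟩ _ ⟨y, hy, rfl⟩
    have h1 : (QuotientGroup.mk' R) ⁅x, b⁻¹ * y * b⁆ = 1 :=
      (QuotientGroup.eq_one_iff _).mpr (hc x hx y hy)
    rw [map_commutatorElement, map_mul, map_mul, map_inv] at h1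
    exact commutatorElement_eq_one_iff_commute.mp h1
  have hmap : ∀ x ∈ ncl A b, (QuotientGroup.mk' R) x ∈
      M (A.map (QuotientGroup.mk' R)) ((QuotientGroup.mk' R) b) := by
    intro x hx
    apply ncl_le hH.hb
    have h1 : (QuotientGroup.mk' R) x ∈ (ncl A b).map (QuotientGroup.mk' R) :=
      Subgroup.mem_map_of_mem _ hx
    rw [ncl, MonoidHom.map_closure] at h1
    refine (Subgroup.closure_mono ?_) h1
    rintro _ ⟨_, ⟨g, hg, a, ha, rfl⟩, rfl⟩
    refine ⟨(QuotientGroup.mk' R) g, ?_, (QuotientGroup.mk' R) a, Subgroup.mem_map_of_mem _ ha, ?_⟩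
    · have h2 : (QuotientGroup.mk' R) g ∈ (A ⊔ Subgroup.zpowers b).map (QuotientGroup.mk' R) :=
        Subgroup.mem_map_of_mem _ hg
      rwa [Subgroup.map_sup, MonoidHom.map_zpowers] at h2
    · rw [map_mul, map_mul, map_inv]
  refine ⟨?_, ?_, fun hR hA => finite_sup hexp R hR A hA b hc⟩
  · intro x hx y hy z hz
    refine (QuotientGroup.eq_one_iff _).mp ?_
    change (QuotientGroup.mk' R) ⁅⁅x, y⁆, z⁆ = 1
    rw [map_commutatorElement, map_commutatorElement]
    exact commutatorElement_eq_one_iff_commute.mpr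
      (hH.M_class _ (hmap x hx) _ (hmap y hy) _ (hmap z hz))
  · intro hA x hx y hy
    refine (QuotientGroup.eq_one_iff _).mp ?_
    change (QuotientGroup.mk' R) ⁅x, y⁆ = 1
    rw [map_commutatorElement]
    refine commutatorElement_eq_one_iff_commute.mpr
      (hH.M_comm ?_ _ (hmap x hx) _ (hmap y hy))
    rintro _ ⟨u, hu, rfl⟩ _ ⟨v, hv, rfl⟩
    have h1 : (QuotientGroup.mk' R) ⁅u, v⁆ = 1 := (QuotientGroup.eq_one_iff _).mpr (hA u hu v hv)
    rw [map_commutatorElement] at h1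
    exact (commutatorElement_eq_one_iff_commute.mp h1).eq


end Pool.Agent.B5CC
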